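import Mathlib
import Pool.Agent.Y334.NA.EX

/-! Choosing random lists in a consistent way along a sequence of words. -/

set_option autoImplicit false

namespace Pool.Agent.Y334.FP

open Pool.Agent.Y334.NA

/-- the data given by the part lemma for one word -/
structure Pt (Z β : Type) (B : Finset β) (w : β → ℝ) (C : ℕ) where
  K : ℕ
  E : List β → Finset Z
  bd : Z → List β → ℝ
  bd0 : ∀ z bs, 0 ≤ bd z bs
  ex : ∀ z, EX B w K (bd z) * (16 * (C + 1)) ≤ 1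
  card : ∀ bs, bs.length = K → (∀ b ∈ bs, b ∈ B) → (E bs).card ≤ C

variable {Z β : Type} {B : Finset β} {w : β → ℝ} {C : ℕ}

/-- the lists over `B` of the right length -/
def Pt.ok (D : Pt Z β B w C) (bs : List β) : Prop := bs.length = D.K ∧ ∀ b ∈ bs, b ∈ B

/-- the number of the ends of `D` which are bad for the choice `rs` of `D'` -/
noncomputable def Pt.cost (D D' : Pt Z β B w C) (bs rs : List β) : ℝ := ∑ e ∈ D.E bs, D'.bd e rs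

theorem Pt.cost_nonneg (D D' : Pt Z β B w C) (bs rs : List β) : 0 ≤ D.cost D' bs rs :=
  Finset.sum_nonneg fun e _ => D'.bd0 e rs

theorem Pt.ex_cost (D D' : Pt Z β B w C) {bs : List β} (hbs : D.ok bs) :
    EX B w D'.K (fun rs => D.cost D' bs rs) ≤ 1 / 16 := by
  have h1 : EX B w D'.K (fun rs => D.cost D' bs rs) = ∑ e ∈ D.E bs, EX B w D'.K (D'.bd e) :=
    EX_sum _ _
  rw [h1]
  have h2 : ∀ e ∈ D.E bs, EX B w D'.K (D'.bd e) ≤ 1 / (16 * (C + 1)) := by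
    intro e _
    rw [le_div_iff₀ (by positivity)]
    exact D'.ex e
  refine (Finset.sum_le_card_nsmul _ _ _ h2).trans ?_
  rw [nsmul_eq_mul]
  have h3 : ((D.E bs).card : ℝ) ≤ C := by exact_mod_cast D.card bs hbs.1 hbs.2
  rw [mul_one_div, div_le_iff₀ (by positivity)]
  linarith

theorem chooseR (hw : ∀ b ∈ B, 0 ≤ w b) (hs : ∑ b ∈ B, w b = 1) (D D' : Pt Z β B w C) :
    ∃ rs, D'.ok rs ∧ EX B w D.K (fun bs => D.cost D' bs rs) < 1 / 8 := by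
  have h1 : EX B w D'.K (fun rs => 8 * EX B w D.K (fun bs => D.cost D' bs rs)) < 1 := by
    rw [EX_const_mul, EX_swap]
    have h2 : EX B w D.K (fun bs => EX B w D'.K (fun rs => D.cost D' bs rs)) ≤
        EX B w D.K (fun _ => 1 / 16) := EX_mono hw fun bs h h' => D.ex_cost D' ⟨h, h'⟩
    rw [EX_const hs] at h2
    linarith
  obtain ⟨rs, h2, h3, h4⟩ := EX_exists hw hs h1
  exact ⟨rs, ⟨h2, h3⟩, by linarith⟩

theorem chooseB (hw : ∀ b ∈ B, 0 ≤ w b) (hs : ∑ b ∈ B, w b = 1) (D₀ D₁ D₂ : Pt Z β B w C)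
    (rs₀ rs₂ : List β) :
    ∃ bs, D₀.ok rs₀ → EX B w D₁.K (fun bs => D₁.cost D₂ bs rs₂) < 1 / 8 →
      D₁.ok bs ∧ D₀.cost D₁ rs₀ bs < 1 ∧ D₁.cost D₂ bs rs₂ < 1 := by
  by_cases h : D₀.ok rs₀ ∧ EX B w D₁.K (fun bs => D₁.cost D₂ bs rs₂) < 1 / 8
  swap
  · exact ⟨[], fun h1 h2 => absurd ⟨h1, h2⟩ h⟩
  obtain ⟨h1, h2⟩ := h
  have h3 : EX B w D₁.K (fun bs => D₀.cost D₁ rs₀ bs + D₁.cost D₂ bs rs₂) < 1 := by
    rw [EX_add]
    have := D₀.ex_cost D₁ h1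
    linarith
  obtain ⟨bs, g1, g2, g3⟩ := EX_exists hw hs h3
  have := D₀.cost_nonneg D₁ rs₀ bs
  have := D₁.cost_nonneg D₂ bs rs₂
  exact ⟨bs, fun _ _ => ⟨⟨g1, g2⟩, by linarith, by linarith⟩⟩

/-- **The system of choices.** -/
theorem sys_of (hw : ∀ b ∈ B, 0 ≤ w b) (hs : ∑ b ∈ B, w b = 1) {Q : Type}
    (D : Q → Pt Z β B w C) :
    ∃ (RS : Q → Q → List β) (BS : Q → List β → Q → Q → List β),
      (∀ q q', (D q').ok (RS q q')) ∧
      ∀ q₀ r₀ q₁ q₂, (D q₀).ok r₀ → (D q₁).ok (BS q₀ r₀ q₁ q₂) ∧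
        (∀ e ∈ (D q₀).E r₀, (D q₁).bd e (BS q₀ r₀ q₁ q₂) < 1) ∧
        ∀ e ∈ (D q₁).E (BS q₀ r₀ q₁ q₂), (D q₂).bd e (RS q₁ q₂) < 1 := by
  choose RS hRS using fun q q' => chooseR hw hs (D q) (D q')
  choose BS hBS using fun q₀ r₀ q₁ q₂ => chooseB hw hs (D q₀) (D q₁) (D q₂) r₀ (RS q₁ q₂)
  refine ⟨RS, BS, fun q q' => (hRS q q').1, ?_⟩
  intro q₀ r₀ q₁ q₂ h
  obtain ⟨g1, g2, g3⟩ := hBS q₀ r₀ q₁ q₂ h (hRS q₁ q₂).2
  refine ⟨g1, fun e he => ?_, fun e he => ?_⟩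
  · exact (Finset.single_le_sum (f := fun e => (D q₁).bd e (BS q₀ r₀ q₁ q₂))
      (fun e _ => (D q₁).bd0 _ _) he).trans_lt g2
  · exact (Finset.single_le_sum (f := fun e => (D q₂).bd e (RS q₁ q₂))
      (fun e _ => (D q₂).bd0 _ _) he).trans_lt g3

end Pool.Agent.Y334.FP
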