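import Mathlib
import Pool.Agent.Y334.NA.Final

/-! Comparison of two sequences of polynomials, and of their critical points. -/

set_option autoImplicit false

open Filter Topology Metric Set Polynomial

namespace Pool.Agent.Y334.FP

open Pool.Agent.Y334.NA

/-- degrees between two and `d`, coefficients bounded by `A`, leading ones from below by `1 / A` -/
def Bd (d : ℕ) (A : ℝ) (P : ℂ[X]) : Prop :=
  2 ≤ P.natDegree ∧ P.natDegree ≤ d ∧ (∀ j, ‖P.coeff j‖ ≤ A) ∧ 1 / A ≤ ‖P.leadingCoeff‖

/-- a Lipschitz constant on bounded sets -/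
theorem lip_bounded (d : ℕ) {A : ℝ} (hA : 0 ≤ A) (r : ℝ) : ∃ L : ℝ, 2 ≤ L ∧ ∀ P : ℂ[X],
    P.natDegree ≤ d → (∀ j, ‖P.coeff j‖ ≤ A) → ∀ z w : ℂ, ‖z‖ ≤ r → ‖w‖ ≤ r →
      ‖P.eval z - P.eval w‖ ≤ L * ‖z - w‖ := by
  set M : ℝ := max r 1 with hM
  have hM1 : 1 ≤ M := le_max_right _ _
  refine ⟨2 + ∑ j ∈ Finset.range (d + 1), A * (j * M ^ j), ?_, fun P hd hP z w hz hw => ?_⟩
  · have : 0 ≤ ∑ j ∈ Finset.range (d + 1), A * (j * M ^ j) :=
      Finset.sum_nonneg fun j _ => by positivity
    linarith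
  · have h5 : P.eval z - P.eval w =
        ∑ j ∈ Finset.range (d + 1), P.coeff j * (z ^ j - w ^ j) := by
      rw [eval_eq_sum_range' (n := d + 1) (by omega), eval_eq_sum_range' (n := d + 1) (by omega),
        ← Finset.sum_sub_distrib]
      apply Finset.sum_congr rfl
      intro j _
      ring
    rw [h5]
    refine (norm_sum_le _ _).trans ?_
    have h6 : ∀ j ∈ Finset.range (d + 1), ‖P.coeff j * (z ^ j - w ^ j)‖ ≤
        A * (j * M ^ j) * ‖z - w‖ := by
      intro j _
      rw [norm_mul, mul_assoc]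
      have := pow_lip hM1 (hz.trans (le_max_left _ _)) (hw.trans (le_max_left _ _)) j
      gcongr
      exact hP j
    refine (Finset.sum_le_sum h6).trans ?_
    rw [← Finset.sum_mul]
    gcongr
    linarith

/-- a bound on bounded sets -/
theorem bound_bounded (d : ℕ) {A : ℝ} (hA : 0 ≤ A) (r : ℝ) : ∃ L : ℝ, 1 ≤ L ∧ ∀ P : ℂ[X],
    P.natDegree ≤ d → (∀ j, ‖P.coeff j‖ ≤ A) → ∀ z : ℂ, ‖z‖ ≤ r → ‖P.eval z‖ ≤ L := by
  set M : ℝ := max r 1 with hM
  have hM1 : 1 ≤ M := le_max_right _ _
  refine ⟨1 + ∑ j ∈ Finset.range (d + 1), A * M ^ j, ?_, fun P hd hP z hz => ?_⟩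
  · have : 0 ≤ ∑ j ∈ Finset.range (d + 1), A * M ^ j :=
      Finset.sum_nonneg fun j _ => by positivity
    linarith
  · rw [eval_eq_sum_range' (n := d + 1) (by omega)]
    refine (norm_sum_le _ _).trans ?_
    have h6 : ∀ j ∈ Finset.range (d + 1), ‖P.coeff j * z ^ j‖ ≤ A * M ^ j := by
      intro j _
      rw [norm_mul, norm_pow]
      gcongr
      · exact hP j
      · exact hz.trans (le_max_left _ _)
    exact (Finset.sum_le_sum h6).trans (by linarith)

/-- close coefficients give close values -/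
theorem close_bounded (d : ℕ) (r : ℝ) : ∃ M : ℝ, 1 ≤ M ∧ ∀ P Q : ℂ[X], P.natDegree ≤ d →
    Q.natDegree ≤ d → ∀ η : ℝ, 0 ≤ η → (∀ j ≤ d, ‖P.coeff j - Q.coeff j‖ ≤ η) →
      ∀ z : ℂ, ‖z‖ ≤ r → ‖P.eval z - Q.eval z‖ ≤ M * η := by
  set m : ℝ := max r 1 with hm
  have hm1 : 1 ≤ m := le_max_right _ _
  refine ⟨1 + ∑ j ∈ Finset.range (d + 1), m ^ j, ?_, fun P Q hP hQ η hη h z hz => ?_⟩
  · have : 0 ≤ ∑ j ∈ Finset.range (d + 1), m ^ j := Finset.sum_nonneg fun j _ => by positivity
    linarith
  · rw [eval_eq_sum_range' (n := d + 1) (by omega), eval_eq_sum_range' (n := d + 1) (by omega),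
      ← Finset.sum_sub_distrib]
    refine (norm_sum_le _ _).trans ?_
    have h6 : ∀ j ∈ Finset.range (d + 1), ‖P.coeff j * z ^ j - Q.coeff j * z ^ j‖ ≤ m ^ j * η := by
      intro j hj
      rw [← sub_mul, norm_mul, norm_pow, mul_comm]
      gcongr
      · exact hz.trans (le_max_left _ _)
      · exact h j (by have := Finset.mem_range.1 hj; omega)
    refine (Finset.sum_le_sum h6).trans ?_
    rw [← Finset.sum_mul]
    gcongr
    linarith

/-- Orbits of two close sequences stay close, or both escape. -/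
theorem close_run {T T' : ℕ → ℂ[X]} {ε R Λ : ℝ} (h : Dat T ε R Λ) (h' : Dat T' ε R Λ) {η : ℝ}
    (hη : 0 ≤ η) {l : List ℂ} (hl : ∀ s ∈ l, ‖s‖ < ε) {i : ℕ}
    (hc : ∀ j, i ≤ j → j < i + l.length → ∀ z : ℂ, ‖z‖ ≤ R + 3 →
      ‖(T j).eval z - (T' j).eval z‖ ≤ η) {z z' : ℂ} {a : ℝ} (ha : ‖z - z'‖ ≤ a)
    (hsm : (a + η * l.length) * Λ ^ l.length ≤ 1 / 2) :
    (‖run T' i l z'‖ ≤ R + 1 →
      ‖run T i l z - run T' i l z'‖ ≤ (a + η * l.length) * Λ ^ l.length) ∧
    (R < ‖run T' i l z'‖ → R - 1 / 2 < ‖run T i l z‖) := by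
  have hR := h.hR
  have hΛ := h.hΛ
  have tri : ∀ u v : ℂ, ‖v‖ ≤ ‖u‖ + ‖u - v‖ := by
    intro u v
    calc ‖v‖ = ‖u - (u - v)‖ := by congr 1; ring
      _ ≤ _ := norm_sub_le _ _
  induction l generalizing i z z' a with
  | nil =>
    simp only [List.length_nil, Nat.cast_zero, mul_zero, add_zero, pow_zero, mul_one] at hsm
    refine ⟨fun _ => by simpa [run] using ha, fun h1 => ?_⟩
    have h2 : R < ‖z'‖ := h1
    have h3 := tri z z'
    show R - 1 / 2 < ‖z‖
    linarith
  | cons s l ih =>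
    have ha0 : 0 ≤ a := (norm_nonneg _).trans ha
    have hp : (1 : ℝ) ≤ Λ ^ l.length := one_le_pow₀ (by linarith)
    have hln : (0 : ℝ) ≤ l.length := Nat.cast_nonneg _
    have hlen : (((s :: l).length : ℕ) : ℝ) = l.length + 1 := by simp
    rw [hlen, List.length_cons, pow_succ] at hsm
    have ha1 : a ≤ 1 / 2 := by
      have e1 : 1 ≤ Λ ^ l.length * Λ := by nlinarith
      have e2 : 0 ≤ η * ((l.length : ℝ) + 1) := by positivity
      calc a ≤ a + η * ((l.length : ℝ) + 1) := by linarith
        _ ≤ (a + η * ((l.length : ℝ) + 1)) * (Λ ^ l.length * Λ) :=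
            le_mul_of_one_le_right (by linarith) e1
        _ ≤ 1 / 2 := hsm
    have hl' : ∀ t ∈ l, ‖t‖ < ε := fun t ht => hl t (List.mem_cons_of_mem _ ht)
    have hs := hl s List.mem_cons_self
    have key : ‖z'‖ ≤ R + 1 → ‖((T i).eval z + s) - ((T' i).eval z' + s)‖ ≤ Λ * a + η := by
      intro hz'
      have hz : ‖z‖ ≤ R + 3 := by
        have := tri z' z
        rw [norm_sub_rev] at this
        linarith
      have h1 := h.lip i z z' hz (by linarith)
      have h2 := hc i le_rfl (by rw [List.length_cons]; omega) z' (by linarith)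
      calc ‖((T i).eval z + s) - ((T' i).eval z' + s)‖
          = ‖((T i).eval z - (T i).eval z') + ((T i).eval z' - (T' i).eval z')‖ := by
            congr 1; ring
        _ ≤ _ := norm_add_le _ _
        _ ≤ Λ * a + η := by
            have : Λ * ‖z - z'‖ ≤ Λ * a := by gcongr
            linarith
    have hsm' : (Λ * a + η + η * l.length) * Λ ^ l.length ≤
        (a + η * (l.length + 1)) * (Λ ^ l.length * Λ) := by
      have h1 : η + η * l.length ≤ (η * (l.length + 1)) * Λ := by nlinarith [mul_nonneg hη hln]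
      calc (Λ * a + η + η * l.length) * Λ ^ l.length
          ≤ (Λ * a + (η * (l.length + 1)) * Λ) * Λ ^ l.length := by
            apply mul_le_mul_of_nonneg_right _ (by positivity)
            linarith
        _ = _ := by ring
    have hc' : ∀ j, i + 1 ≤ j → j < i + 1 + l.length → ∀ z : ℂ, ‖z‖ ≤ R + 3 →
        ‖(T j).eval z - (T' j).eval z‖ ≤ η := by
      intro j h1 h2
      exact hc j (by omega) (by rw [List.length_cons]; omega)
    refine ⟨fun hend => ?_, fun hend => ?_⟩
    · have hz' : ‖z'‖ ≤ R + 1 := by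
        by_contra hcon
        push Not at hcon
        have := big_run' h' hl (i := i) (z := z') (by linarith)
        linarith
      have h3 := (ih hl' (i := i + 1) hc' (key hz') (hsm'.trans hsm)).1 hend
      show ‖run T (i + 1) l ((T i).eval z + s) - run T' (i + 1) l ((T' i).eval z' + s)‖ ≤ _
      rw [hlen, List.length_cons, pow_succ]
      exact h3.trans hsm'
    · rcases le_or_gt ‖z'‖ (R + 1) with hz' | hz'
      · exact (ih hl' (i := i + 1) hc' (key hz') (hsm'.trans hsm)).2 hend
      · have h3 := tri z z'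
        have h4 : R < ‖z‖ := by linarith
        have h5 := big_run' h hl (i := i) (z := z) h4.le
        linarith

/-- uniform Lipschitz constant of finitely many steps on bounded sets -/
theorem lip_steps (d : ℕ) {A ε : ℝ} (hA : 0 ≤ A) (k : ℕ) : ∀ r : ℝ, ∃ L : ℝ, 1 ≤ L ∧
    ∀ T : ℕ → ℂ[X], (∀ i, (T i).natDegree ≤ d ∧ ∀ j, ‖(T i).coeff j‖ ≤ A) →
    ∀ (i : ℕ) (l : List ℂ), l.length ≤ k → (∀ s ∈ l, ‖s‖ ≤ ε) → ∀ z w : ℂ, ‖z‖ ≤ r → ‖w‖ ≤ r →
      ‖run T i l z - run T i l w‖ ≤ L * ‖z - w‖ := by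
  induction k with
  | zero =>
    intro r
    refine ⟨1, le_rfl, fun T _ i l hl _ z w _ _ => ?_⟩
    have : l = [] := List.length_eq_zero_iff.1 (by omega)
    subst this
    rw [one_mul]
    exact le_rfl
  | succ k ih =>
    intro r
    obtain ⟨L₁, hL₁, h₁⟩ := lip_bounded d hA r
    obtain ⟨M, hM, h₂⟩ := bound_bounded d hA r
    obtain ⟨L₂, hL₂, h₃⟩ := ih (M + ε)
    refine ⟨L₂ * L₁, by nlinarith, fun T hT i l hl hls z w hz hw => ?_⟩
    cases l with
    | nil =>
      show ‖z - w‖ ≤ _
      have : 1 ≤ L₂ * L₁ := by nlinarith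
      nlinarith [norm_nonneg (z - w)]
    | cons s l =>
      have hs := hls s List.mem_cons_self
      have h4 := h₂ _ (hT i).1 (hT i).2 z hz
      have h5 := h₂ _ (hT i).1 (hT i).2 w hw
      have h6 : ‖(T i).eval z + s‖ ≤ M + ε := (norm_add_le _ _).trans (by linarith)
      have h7 : ‖(T i).eval w + s‖ ≤ M + ε := (norm_add_le _ _).trans (by linarith)
      have h8 := h₃ T hT (i + 1) l (by simpa using hl)
        (fun t ht => hls t (List.mem_cons_of_mem _ ht)) _ _ h6 h7
      have h9 := h₁ _ (hT i).1 (hT i).2 z w hz hw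
      show ‖run T (i + 1) l ((T i).eval z + s) - run T (i + 1) l ((T i).eval w + s)‖ ≤ _
      have h10 : ((T i).eval z + s) - ((T i).eval w + s) = (T i).eval z - (T i).eval w := by ring
      rw [h10] at h8
      calc _ ≤ L₂ * ‖(T i).eval z - (T i).eval w‖ := h8
        _ ≤ L₂ * (L₁ * ‖z - w‖) := by gcongr
        _ = _ := by ring

/-- The critical points of close polynomials are close. -/
theorem close_crit (d : ℕ) {A : ℝ} (hA : 1 ≤ A) (r : ℝ) {κ : ℝ} (hκ : 0 < κ) :
    ∃ η : ℝ, 0 < η ∧ ∀ P Q : ℂ[X], Bd d A P → Bd d A Q → (∀ j ≤ d, ‖P.coeff j - Q.coeff j‖ ≤ η) →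
      ∀ c : ℂ, ‖c‖ ≤ r → (derivative P).eval c = 0 → ∃ c', (derivative Q).eval c' = 0 ∧
        ‖c - c'‖ < κ := by
  obtain ⟨M, hM, hcl⟩ := close_bounded d r
  set κ' : ℝ := min κ 1 with hκ'
  have hκ0 : 0 < κ' := lt_min hκ one_pos
  have hκ1 : κ' ≤ 1 := min_le_right _ _
  refine ⟨κ' ^ d / (2 * A * (M * (d + 1))), by positivity, ?_⟩
  intro P Q hP hQ hPQ c hc hcP
  set η : ℝ := κ' ^ d / (2 * A * (M * (d + 1))) with hη
  have hη0 : 0 < η := by rw [hη]; positivity
  by_contra hcon
  push Not at hcon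
  -- the derivative of `Q` is small at `c`
  have h1 : ‖(derivative Q).eval c‖ ≤ M * ((d + 1) * η) := by
    have h2 := hcl (derivative P) (derivative Q)
      ((natDegree_derivative_le _).trans (by have := hP.2.1; omega))
      ((natDegree_derivative_le _).trans (by have := hQ.2.1; omega)) ((d + 1) * η) (by positivity)
      (by
        intro j hj
        rw [coeff_derivative, coeff_derivative, ← sub_mul, norm_mul]
        have h3 : ‖((j : ℂ) + 1)‖ ≤ d + 1 := by
          have : ((j : ℂ) + 1) = ((j + 1 : ℕ) : ℂ) := by push_cast; ring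
          rw [this, Complex.norm_natCast]
          exact_mod_cast Nat.succ_le_succ hj
        rcases Nat.lt_or_ge j d with hjd | hjd
        · have h4 := hPQ (j + 1) (by omega)
          calc ‖P.coeff (j + 1) - Q.coeff (j + 1)‖ * ‖(j : ℂ) + 1‖ ≤ η * (d + 1) := by gcongr
            _ = _ := by ring
        · have e1 : P.coeff (j + 1) = 0 := coeff_eq_zero_of_natDegree_lt (by have := hP.2.1; omega)
          have e2 : Q.coeff (j + 1) = 0 := coeff_eq_zero_of_natDegree_lt (by have := hQ.2.1; omega)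
          rw [e1, e2, sub_zero, norm_zero, zero_mul]
          positivity) c hc
    rw [hcP, zero_sub, norm_neg] at h2
    exact h2
  -- and large, as all its roots are far
  have hdeg : (derivative Q).natDegree = Q.natDegree - 1 :=
    natDegree_eq_of_degree_eq_some (degree_derivative_eq Q (by have := hQ.1; omega))
  have hQ0 : derivative Q ≠ 0 := by
    intro h
    have := derivative_eq_zero.1 h
    have := hQ.1
    omega
  have hlead : (derivative Q).leadingCoeff = Q.leadingCoeff * Q.natDegree := by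
    rw [leadingCoeff, hdeg, coeff_derivative]
    have h2 : Q.natDegree - 1 + 1 = Q.natDegree := by have := hQ.1; omega
    rw [h2]
    have h3 : ((Q.natDegree - 1 : ℕ) : ℂ) + 1 = Q.natDegree := by
      have : ((Q.natDegree - 1 + 1 : ℕ) : ℂ) = Q.natDegree := by rw [h2]
      rw [← this]; push_cast; ring
    rw [h3]
    rfl
  have hlead2 : 1 / A ≤ ‖(derivative Q).leadingCoeff‖ := by
    rw [hlead, norm_mul, Complex.norm_natCast]
    have h2 : (1 : ℝ) ≤ Q.natDegree := by exact_mod_cast (by have := hQ.1; omega : 1 ≤ Q.natDegree)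
    calc 1 / A ≤ ‖Q.leadingCoeff‖ := hQ.2.2.2
      _ ≤ ‖Q.leadingCoeff‖ * Q.natDegree := le_mul_of_one_le_right (norm_nonneg _) h2
  have hprod : (derivative Q).eval c = (derivative Q).leadingCoeff *
      ((derivative Q).roots.map fun a => c - a).prod := by
    conv_lhs => rw [(IsAlgClosed.splits (derivative Q)).eq_prod_roots]
    rw [eval_mul, eval_C, eval_multiset_prod, Multiset.map_map]
    simp
  have hcard : Multiset.card (derivative Q).roots = Q.natDegree - 1 := by
    rw [← hdeg]
    exact (IsAlgClosed.splits (derivative Q)).natDegree_eq_card_roots.symm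
  have hge : κ' ^ d ≤ ‖((derivative Q).roots.map fun a => c - a).prod‖ := by
    have h2 : ‖((derivative Q).roots.map fun a => c - a).prod‖ =
        ((derivative Q).roots.map fun a => ‖c - a‖).prod := by
      induction (derivative Q).roots using Multiset.induction_on with
      | empty => simp
      | cons a s ih => rw [Multiset.map_cons, Multiset.prod_cons, norm_mul, ih, Multiset.map_cons,
          Multiset.prod_cons]
    rw [h2]
    have h3 : κ' ^ Multiset.card (derivative Q).roots ≤
        ((derivative Q).roots.map fun a => ‖c - a‖).prod := by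
      have h4 : ∀ (s : Multiset ℂ), (∀ a ∈ s, κ' ≤ ‖c - a‖) →
          κ' ^ Multiset.card s ≤ (s.map fun a => ‖c - a‖).prod := by
        intro s
        induction s using Multiset.induction_on with
        | empty => simp
        | cons a s ih =>
          intro hs
          rw [Multiset.card_cons, pow_succ, Multiset.map_cons, Multiset.prod_cons, mul_comm]
          have h5 := ih fun b hb => hs b (Multiset.mem_cons_of_mem hb)
          have h6 := hs a (Multiset.mem_cons_self a s)
          gcongr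
      apply h4
      intro a ha
      exact (min_le_left _ _).trans (hcon a ((mem_roots hQ0).1 ha))
    refine le_trans ?_ h3
    rw [hcard]
    exact pow_le_pow_of_le_one hκ0.le hκ1 (by have := hQ.2.1; omega)
  have h9 : 1 / A * κ' ^ d ≤ M * ((d + 1) * η) := by
    calc 1 / A * κ' ^ d ≤ ‖(derivative Q).leadingCoeff‖ *
          ‖((derivative Q).roots.map fun a => c - a).prod‖ := by gcongr
      _ = ‖(derivative Q).eval c‖ := by rw [hprod, norm_mul]
      _ ≤ _ := h1
  have h10 : M * ((d + 1) * η) = 1 / A * κ' ^ d / 2 := by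
    rw [hη]
    field_simp
  rw [h10] at h9
  have h11 : 0 < 1 / A * κ' ^ d := by positivity
  linarith

end Pool.Agent.Y334.FP
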