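import Mathlib
import Pool.Agent.Y334.FP.Close

/-! Fibered polynomials: basic facts. -/

set_option autoImplicit false

open Filter Topology Metric Set Polynomial

namespace Pool.Agent.Y334.FP

open Pool.Agent.Y334.NA

/-- the fibre iterates of `(x, z) ↦ (T x, P x (z) + s x)` -/
noncomputable def fc {X : Type} (T : X → X) (P : X → ℂ[X]) (s : X → ℂ) : ℕ → X → ℂ → ℂ
  | 0, _, z => z
  | k + 1, x, z => (P (T^[k] x)).eval (fc T P s k x z) + s (T^[k] x)

section

variable {X : Type} {T : X → X} {P : X → ℂ[X]} {s : X → ℂ}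

theorem fc_zero (x : X) (z : ℂ) : fc T P s 0 x z = z := rfl

theorem fc_succ (k : ℕ) (x : X) (z : ℂ) :
    fc T P s (k + 1) x z = (P (T^[k] x)).eval (fc T P s k x z) + s (T^[k] x) := rfl

theorem fc_add (k m : ℕ) (x : X) (z : ℂ) :
    fc T P s (m + k) x z = fc T P s m (T^[k] x) (fc T P s k x z) := by
  induction m with
  | zero => rw [Nat.zero_add, fc_zero]
  | succ m ih =>
    have e : m + 1 + k = (m + k) + 1 := by ring
    rw [e, fc_succ, fc_succ, ih, Function.iterate_add_apply]

/-- the kicks along an orbit -/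
def kl (T : X → X) (s : X → ℂ) (k : ℕ) (x : X) : List ℂ := (List.range k).map fun i => s (T^[i] x)

theorem kl_length (k : ℕ) (x : X) : (kl T s k x).length = k := by simp [kl]

theorem fc_run (k : ℕ) (x : X) (z : ℂ) :
    fc T P s k x z = run (fun i => P (T^[i] x)) 0 (kl T s k x) z := by
  induction k with
  | zero => rfl
  | succ k ih =>
    have h1 : kl T s (k + 1) x = kl T s k x ++ [s (T^[k] x)] := by
      simp [kl, List.range_succ]
    rw [fc_succ, ih, h1, run_append, kl_length, Nat.zero_add]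
    rfl

theorem run_shift (U : ℕ → ℂ[X]) (a : ℕ) (l : List ℂ) (i : ℕ) (z : ℂ) :
    run (fun j => U (j + a)) i l z = run U (i + a) l z := by
  induction l generalizing i z with
  | nil => rfl
  | cons t l ih =>
    show run (fun j => U (j + a)) (i + 1) l _ = run U (i + a + 1) l _
    rw [ih]
    congr 1
    ring

theorem run_congr {U V : ℕ → ℂ[X]} {l : List ℂ} {i : ℕ}
    (h : ∀ j, i ≤ j → j < i + l.length → U j = V j) (z : ℂ) : run U i l z = run V i l z := by
  induction l generalizing i z with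
  | nil => rfl
  | cons t l ih =>
    show run U (i + 1) l ((U i).eval z + t) = run V (i + 1) l ((V i).eval z + t)
    rw [h i le_rfl (by simp)]
    exact ih (fun j h1 h2 => h j (by omega) (by rw [List.length_cons]; omega)) _

theorem fc_diff (k : ℕ) (x : X) : Differentiable ℂ (fc T P s k x) := by
  induction k with
  | zero => exact differentiable_id
  | succ k ih => exact ((P (T^[k] x)).differentiable.comp ih).add_const _

theorem fc_big {R : ℝ} (hR : 1 ≤ R)
    (hesc : ∀ x z, R ≤ ‖z‖ → 2 * ‖z‖ ≤ ‖(P x).eval z + s x‖) {x : X} {z : ℂ} (hz : R ≤ ‖z‖)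
    (k : ℕ) : 2 ^ k * ‖z‖ ≤ ‖fc T P s k x z‖ := by
  induction k with
  | zero => simp [fc_zero]
  | succ k ih =>
    have h1 : (1 : ℝ) ≤ 2 ^ k := one_le_pow₀ (by norm_num)
    have h2 : R ≤ ‖fc T P s k x z‖ := by nlinarith
    have h3 := hesc (T^[k] x) _ h2
    rw [fc_succ, pow_succ]
    linarith

theorem fc_cont [TopologicalSpace X] (hT : Continuous T) {d : ℕ}
    (hP : ∀ k, Continuous fun x => (P x).coeff k) (hd : ∀ x, (P x).natDegree ≤ d)
    (hs : Continuous s) (k : ℕ) (z : ℂ) : Continuous fun x => fc T P s k x z := by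
  induction k with
  | zero => exact continuous_const
  | succ k ih =>
    have h1 : ∀ (f : X → ℂ), Continuous f → Continuous fun x => (P x).eval (f x) := by
      intro f hf
      have h2 : (fun x => (P x).eval (f x)) =
          fun x => ∑ j ∈ Finset.range (d + 1), (P x).coeff j * f x ^ j := by
        funext x
        exact eval_eq_sum_range' (by have := hd x; omega) _
      rw [h2]
      exact continuous_finset_sum _ fun j _ => (hP j).mul (hf.pow j)
    have h2 : Continuous fun x => (P (T^[k] x)).eval (fc T P s k x z) := by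
      have h3 : (fun x => (P (T^[k] x)).eval (fc T P s k x z)) =
          fun x => ∑ j ∈ Finset.range (d + 1), (P (T^[k] x)).coeff j * fc T P s k x z ^ j := by
        funext x
        exact eval_eq_sum_range' (by have := hd (T^[k] x); omega) _
      rw [h3]
      exact continuous_finset_sum _ fun j _ =>
        ((hP j).comp (hT.iterate k)).mul (ih.pow j)
    exact h2.add (hs.comp (hT.iterate k))

end

theorem cauchy_lip {F : ℂ → ℂ} (hF : Differentiable ℂ F) {e e' : ℂ} {ρ : ℝ} (hρ : 0 < ρ)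
    (h : ∀ w, ‖w - e‖ ≤ ρ → ‖F w - e'‖ ≤ ρ / 8) {w w' : ℂ} (hw : ‖w - e‖ ≤ ρ / 2)
    (hw' : ‖w' - e‖ ≤ ρ / 2) : ‖F w - F w'‖ ≤ 1 / 4 * ‖w - w'‖ := by
  have hder : ∀ u ∈ closedBall e (ρ / 2), ‖deriv F u‖ ≤ 1 / 4 := by
    intro u hu
    rw [mem_closedBall, dist_eq_norm] at hu
    have h1 : deriv F u = deriv (fun z => F z - e') u := by rw [deriv_sub_const]
    rw [h1]
    have h2 : ‖deriv (fun z => F z - e') u‖ ≤ ρ / 8 / (ρ / 2) := by
      apply Complex.norm_deriv_le_of_forall_mem_sphere_norm_le (by positivity)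
      · exact (hF.sub_const _).diffContOnCl
      · intro z hz
        rw [mem_sphere, dist_eq_norm] at hz
        apply h
        calc ‖z - e‖ = ‖(z - u) + (u - e)‖ := by congr 1; ring
          _ ≤ ‖z - u‖ + ‖u - e‖ := norm_add_le _ _
          _ ≤ ρ := by linarith
    refine h2.trans (le_of_eq ?_)
    field_simp
    norm_num
  refine (convex_closedBall e (ρ / 2)).norm_image_sub_le_of_norm_deriv_le
    (fun x _ => hF x) hder ?_ ?_
  · rw [mem_closedBall, dist_eq_norm]; exact hw'
  · rw [mem_closedBall, dist_eq_norm]; exact hw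

/-- a finite net of polynomials -/
theorem net_poly (d : ℕ) (A : ℝ) {η : ℝ} (hη : 0 < η) :
    ∃ I : Finset ℂ[X], (∀ g ∈ I, Bd d A g) ∧
      ∀ P : ℂ[X], Bd d A P → ∃ g ∈ I, ∀ j ≤ d, ‖P.coeff j - g.coeff j‖ < η := by
  classical
  let vec : ℂ[X] → (Fin (d + 1) → ℂ) := fun p => fun i => p.coeff i
  let X₀ : Set ℂ[X] := {p | Bd d A p}
  have htb : TotallyBounded (vec '' X₀) := by
    apply (isCompact_closedBall (0 : Fin (d + 1) → ℂ) (max A 0)).totallyBounded.subset
    rintro _ ⟨p, hp, rfl⟩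
    rw [mem_closedBall_zero_iff, pi_norm_le_iff_of_nonneg (le_max_right _ _)]
    exact fun i => (hp.2.2.1 i).trans (le_max_left _ _)
  obtain ⟨t, ht, htf, hcov⟩ := htb.exists_subset (Metric.dist_mem_uniformity hη)
  have hch : ∀ y : Fin (d + 1) → ℂ, ∃ p : ℂ[X], y ∈ t → p ∈ X₀ ∧ vec p = y := by
    intro y
    by_cases hy : y ∈ t
    · obtain ⟨p, h1, h2⟩ := ht hy
      exact ⟨p, fun _ => ⟨h1, h2⟩⟩
    · exact ⟨0, fun h => absurd h hy⟩
  choose pr₁ hpr using hch
  refine ⟨htf.toFinset.image pr₁, ?_, ?_⟩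
  · intro p hp
    obtain ⟨y, hy, rfl⟩ := Finset.mem_image.1 hp
    exact (hpr y (htf.mem_toFinset.1 hy)).1
  · intro P hP
    have h1 : vec P ∈ vec '' X₀ := mem_image_of_mem _ hP
    obtain ⟨y, hy, hPy⟩ := mem_iUnion₂.1 (hcov h1)
    have hPy' : dist (vec P) y < η := hPy
    obtain ⟨hp1, hp2⟩ := hpr y hy
    refine ⟨pr₁ y, Finset.mem_image_of_mem _ (htf.mem_toFinset.2 hy), fun k hk => ?_⟩
    rw [← hp2] at hPy'
    have h5 := (dist_le_pi_dist (vec P) (vec (pr₁ y)) ⟨k, by omega⟩).trans_lt hPy'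
    rw [dist_eq_norm] at h5
    exact h5

end Pool.Agent.Y334.FP
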