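import Mathlib
import Pool.Agent.Y334.NA.Final

/-! Random kicks along a word of polynomials. -/

set_option autoImplicit false

open Filter Topology Metric Set Polynomial

namespace Pool.Agent.Y334.FP

open Pool.Agent.Y334.NA

/-- **The part lemma.** -/
theorem part {ε R Λ : ℝ} (hR : 1 ≤ R) (hΛ : 2 ≤ Λ) (hε : 0 < ε) (D : ℕ) :
    ∃ (S : Finset ℂ) (B : Finset (List ℂ)) (w : List ℂ → ℝ) (n : ℕ) (ρ : ℝ) (C : ℕ),
      ((0 : ℂ) ∈ S ∧ ∀ s ∈ S, ‖s‖ < ε) ∧ (∀ b ∈ B, 0 ≤ w b) ∧ ∑ b ∈ B, w b = 1 ∧ 1 ≤ n ∧ 0 < ρ ∧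
      ρ * Λ ≤ 1 / 2 ∧
      ∀ T : ℕ → ℂ[X], Dat T ε R Λ → (∀ i, 2 ≤ (T i).natDegree ∧ (T i).natDegree ≤ D) →
      ∀ N, n ≤ N → N ≤ 3 * n →
      ∃ (K : ℕ) (φ : List (List ℂ) → List ℂ) (E : List (List ℂ) → Finset ℂ)
        (bd : ℂ → List (List ℂ) → ℝ),
        (∀ z bs, 0 ≤ bd z bs) ∧
        (∀ z, EX B w K (bd z) * (16 * (C + 1)) ≤ 1) ∧
        ∀ bs : List (List ℂ), bs.length = K → (∀ b ∈ bs, b ∈ B) →
          (φ bs).length = N ∧ (∀ s ∈ φ bs, s ∈ S) ∧ (E bs).card ≤ C ∧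
          (∀ t < N, ∀ c, (derivative (T t)).eval c = 0 → run T t ((φ bs).drop t) c ∈ E bs) ∧
          ∀ z, bd z bs < 1 →
            (∀ w, ‖z - w‖ ≤ ρ → R < ‖run T 0 (φ bs) w‖) ∨
            ∃ e ∈ E bs, ∀ w, ‖z - w‖ ≤ ρ → ‖run T 0 (φ bs) w - e‖ ≤ ρ / 16 := by
  classical
  obtain ⟨S, m, B, w, lam, q, ⟨hS0, hS1⟩, hm1, hlam, hq0, hq1, hB', hw, hs, hcontr, hq⟩ :=
    block_data hR hΛ hε
  have hB : ∀ b ∈ B, b.length = m ∧ ∀ s ∈ b, ‖s‖ < ε :=
    fun b hb => ⟨(hB' b hb).1, fun s hs => hS1 s ((hB' b hb).2 s hs)⟩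
  have hLm : (1 : ℝ) ≤ Λ ^ m := one_le_pow₀ (by linarith)
  set r₀ : ℝ := min (ε / (8 * Λ)) (1 / (2 * Λ ^ m)) with hr₀
  have hr0 : 0 < r₀ := by rw [hr₀]; positivity
  have hr1 : r₀ * Λ ^ m ≤ 1 / 2 := by
    calc r₀ * Λ ^ m ≤ 1 / (2 * Λ ^ m) * Λ ^ m := by
          gcongr; exact min_le_right _ _
      _ = 1 / 2 := by field_simp
  -- the net
  obtain ⟨t, hts, htf, htc⟩ := Metric.finite_approx_of_totallyBounded
    (isCompact_closedBall (0 : ℂ) (R + 1)).totallyBounded r₀ hr0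
  set Nt : Finset ℂ := htf.toFinset with hNdef
  have hNt : ∀ z : ℂ, ‖z‖ ≤ R + 1 → ∃ ν ∈ Nt, ‖z - ν‖ ≤ r₀ := by
    intro z hz
    have h1 : z ∈ closedBall (0 : ℂ) (R + 1) := by rwa [mem_closedBall_zero_iff]
    obtain ⟨σ, hσ, h2⟩ := mem_iUnion₂.1 (htc h1)
    refine ⟨σ, htf.mem_toFinset.2 hσ, ?_⟩
    have h3 : dist z σ < r₀ := h2
    rw [dist_eq_norm] at h3
    exact h3.le
  -- the rates
  set x : ℝ := q ^ ((1 : ℝ) / 4) with hx
  have hx0 : 0 < x := Real.rpow_pos_of_pos hq0 _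
  have hx1 : x < 1 := Real.rpow_lt_one hq0.le hq1 (by norm_num)
  have hx4 : x ^ 4 = q := by
    rw [hx, ← Real.rpow_natCast, ← Real.rpow_mul hq0.le]
    norm_num
  set Y : ℝ := x⁻¹ ^ (1 / lam) with hY
  have hxi : 1 < x⁻¹ := (one_lt_inv₀ hx0).2 hx1
  have hY1 : 1 < Y := Real.one_lt_rpow hxi (by positivity)
  have hYl : Y ^ lam = x⁻¹ := by
    rw [hY, ← Real.rpow_mul (by positivity), one_div, inv_mul_cancel₀ hlam.ne', Real.rpow_one]
  have hY0 : 0 < Y := by linarith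
  obtain ⟨K₀, hK₀, hK⟩ := exists_K (48 * (3 * Nt.card + 3 * m * D + 1)) (32 * Λ ^ m) x Y
    hx0 hx1 hY1 (by positivity)
  obtain ⟨hK1, hK2⟩ := hK K₀ le_rfl
  set Th : ℝ := Y ^ K₀ with hTh
  have hTh0 : 0 < Th := by positivity
  have hTh1 : 1 ≤ Th := one_le_pow₀ hY1.le
  set th : ℝ := (Th⁻¹) ^ 2 with hth
  have hth0 : 0 < th := by positivity
  set ρ : ℝ := r₀ / Th with hρ
  have hρ0 : 0 < ρ := by positivity
  have hρr : ρ ≤ r₀ := div_le_self hr0.le hTh1
  have hThρ : Th * ρ ≤ r₀ := by rw [hρ]; exact (mul_div_cancel₀ r₀ hTh0.ne').le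
  have hsmall : Λ ^ m * (2 * (th * r₀)) ≤ ρ / 16 := by
    rw [hρ, hth, div_div, le_div_iff₀ (by positivity)]
    have h1 : Th⁻¹ * Th = 1 := inv_mul_cancel₀ hTh0.ne'
    calc Λ ^ m * (2 * (Th⁻¹ ^ 2 * r₀)) * (Th * 16)
        = (32 * Λ ^ m) * (Th⁻¹ * r₀) * (Th⁻¹ * Th) := by ring
      _ = (32 * Λ ^ m) * (Th⁻¹ * r₀) := by rw [h1, mul_one]
      _ ≤ Th * (Th⁻¹ * r₀) := by gcongr
      _ = r₀ * (Th⁻¹ * Th) := by ring
      _ = r₀ := by rw [h1, mul_one]
  have hρΛ : ρ * Λ ≤ 1 / 2 := by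
    have h1 : Λ ≤ Λ ^ m := by
      calc Λ = Λ ^ 1 := (pow_one _).symm
        _ ≤ Λ ^ m := pow_le_pow_right₀ (by linarith) hm1
    calc ρ * Λ ≤ r₀ * Λ ^ m := by gcongr
      _ ≤ 1 / 2 := hr1
  have hThl : (Th ^ lam)⁻¹ = x ^ K₀ := by
    rw [hTh, ← Real.rpow_natCast, ← Real.rpow_mul hY0.le, mul_comm, Real.rpow_mul hY0.le, hYl,
      Real.rpow_natCast, ← inv_pow, inv_inv]
  have hthl : (th ^ lam)⁻¹ = ((x ^ K₀) ^ 2)⁻¹ := by
    have h1 : th ^ lam = (x ^ K₀) ^ 2 := by
      rw [hth, ← Real.rpow_natCast, ← Real.rpow_mul (by positivity), mul_comm,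
        Real.rpow_mul (by positivity), Real.inv_rpow hTh0.le, hThl, Real.rpow_natCast]
    rw [h1]
  set C : ℕ := Nt.card * (3 * K₀ + 1) + (3 * (m * K₀)) * D with hC
  refine ⟨S, B, w, m * K₀, ρ, C, ⟨hS0, hS1⟩, hw, hs, Nat.mul_pos hm1 hK₀, hρ0, hρΛ, ?_⟩
  intro T h hdeg N hN1 hN2
  obtain ⟨K, hKd⟩ : ∃ K, K = N / m := ⟨_, rfl⟩
  obtain ⟨r, hrd⟩ : ∃ r, r = N % m := ⟨_, rfl⟩
  have hr : r < m := by rw [hrd]; exact Nat.mod_lt _ hm1
  have hNKr : N = K * m + r := by
    have := Nat.div_add_mod N m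
    rw [← hKd, ← hrd] at this
    rw [← this]
    ring
  have hKlo : K₀ ≤ K := by
    rw [hKd, Nat.le_div_iff_mul_le hm1]
    rw [mul_comm]; exact hN1
  have hKhi : K ≤ 3 * K₀ := by
    rw [hKd]
    apply Nat.div_le_of_le_mul
    calc N ≤ 3 * (m * K₀) := hN2
      _ = m * (3 * K₀) := by ring
  have hBD : BD T ε R Λ m B r₀ := by
    refine ⟨h, fun b hb => (hB b hb).1, fun b hb => (hB b hb).2, hr0, hr1, ?_⟩
    intro i z w' h1 h2 h3
    exact hcontr T h i z w' h1 h2 (h3.trans (min_le_left _ _))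
  have hprob : ∀ z : ℂ, EX B w K (bad T ε R Λ m Th th 0 z) ≤ (3 * K₀ + 2) * x ^ K₀ := by
    intro z
    refine (prob_bad hBD hw hs hlam hq0 hq1 (fun i z hz => hq T h i z hz) hTh0 hth0 K 0 z).trans ?_
    rw [hThl, hthl]
    have h2 : 0 < x ^ K₀ := by positivity
    have h3 : x ^ K₀ ≤ 1 := pow_le_one₀ hx0.le hx1.le
    have h4 : q ^ K ≤ q ^ K₀ := pow_le_pow_of_le_one hq0.le hq1.le hKlo
    have h5 : q ^ K₀ = (x ^ K₀) ^ 4 := by rw [← hx4, ← pow_mul, ← pow_mul, mul_comm]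
    have h6 : q ^ K * ((x ^ K₀) ^ 2)⁻¹ ≤ x ^ K₀ := by
      calc q ^ K * ((x ^ K₀) ^ 2)⁻¹ ≤ (x ^ K₀) ^ 4 * ((x ^ K₀) ^ 2)⁻¹ := by
            rw [← h5]; gcongr
        _ = (x ^ K₀) ^ 2 := by field_simp
        _ ≤ x ^ K₀ := by nlinarith
    have h7 : (K : ℝ) ≤ 3 * K₀ := by exact_mod_cast hKhi
    nlinarith
  -- the critical points of the factors
  set Cr : ℕ → Finset ℂ := fun t => (derivative (T t)).roots.toFinset with hCr
  have hdT : ∀ t, derivative (T t) ≠ 0 := by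
    intro t h1
    have := derivative_eq_zero.1 h1
    have := (hdeg t).1
    omega
  have hCrc : ∀ t, (Cr t).card ≤ D := by
    intro t
    calc (Cr t).card ≤ Multiset.card (derivative (T t)).roots := Multiset.toFinset_card_le _
      _ ≤ (derivative (T t)).natDegree := card_roots' _
      _ ≤ (T t).natDegree - 1 := natDegree_derivative_le _
      _ ≤ D := by have := (hdeg t).2; omega
  have hCrm : ∀ t w', (derivative (T t)).eval w' = 0 → w' ∈ Cr t := by
    intro t w' hw'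
    rw [hCr]
    simp only [Multiset.mem_toFinset]
    rw [mem_roots (hdT t)]
    exact hw'
  have hflen : ∀ (bs : List (List ℂ)), (∀ b ∈ bs, b ∈ B) → bs.flatten.length = bs.length * m := by
    intro bs hbs
    induction bs with
    | nil => simp
    | cons b bs ih =>
      rw [List.flatten_cons, List.length_append,
        ih (fun c hc => hbs c (List.mem_cons_of_mem _ hc)),
        (hB b (hbs b List.mem_cons_self)).1, List.length_cons]
      ring
  set φ : List (List ℂ) → List ℂ := fun bs => bs.flatten ++ List.replicate r 0 with hφ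
  set E : List (List ℂ) → Finset ℂ := fun bs =>
    (Nt ×ˢ Finset.range (K + 1)).image (fun p => It T (K * m) r (rb T (p.2 * m) (bs.drop p.2) p.1)) ∪
    (Finset.range N).biUnion (fun t => (Cr t).image fun c => run T t ((φ bs).drop t) c) with hE
  refine ⟨K, φ, E, fun z bs => bad T ε R Λ m Th th 0 z bs, fun z bs => bad_nonneg, ?_, ?_⟩
  · intro z
    have h1 := hprob z
    have h2 : ((C : ℝ) + 1) ≤ (3 * Nt.card + 3 * m * D + 1) * (K₀ + 1) := by
      rw [hC]
      push_cast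
      have h3 : (0 : ℝ) ≤ Nt.card := Nat.cast_nonneg _
      have h4 : (0 : ℝ) ≤ m * D := by positivity
      have h5 : (0 : ℝ) ≤ K₀ := by positivity
      nlinarith
    have h3 : (0 : ℝ) ≤ x ^ K₀ := by positivity
    have h4 : (3 * (K₀ : ℝ) + 2) * x ^ K₀ ≤ 3 * ((K₀ + 2) * x ^ K₀) := by nlinarith
    have h5 : (0 : ℝ) ≤ 3 * ((K₀ + 2) * x ^ K₀) := by positivity
    calc EX B w K (fun bs => bad T ε R Λ m Th th 0 z bs) * (16 * (C + 1))
        ≤ (3 * ((K₀ + 2) * x ^ K₀)) * (16 * ((3 * Nt.card + 3 * m * D + 1) * (K₀ + 1))) := by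
          have hC0 : (0 : ℝ) ≤ C := Nat.cast_nonneg _
          exact mul_le_mul (h1.trans h4) (by linarith) (by linarith) h5
      _ = 48 * (3 * Nt.card + 3 * m * D + 1) * (K₀ + 1) * ((K₀ + 2) * x ^ K₀) := by ring
      _ ≤ 1 := hK1.le
  · intro bs hbsK hbsB
    have hfl : bs.flatten.length = K * m := by rw [hflen bs hbsB, hbsK]
    have hφl : (φ bs).length = N := by
      rw [hφ]
      simp only [List.length_append, List.length_replicate]
      rw [hfl, ← hNKr]
    refine ⟨hφl, ?_, ?_, ?_, ?_⟩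
    · intro s hs'
      rcases List.mem_append.1 hs' with hs' | hs'
      · obtain ⟨b, hb, hsb⟩ := List.mem_flatten.1 hs'
        exact (hB' b (hbsB b hb)).2 s hsb
      · rw [(List.mem_replicate.1 hs').2]
        exact hS0
    · refine (Finset.card_union_le _ _).trans ?_
      rw [hC]
      apply Nat.add_le_add
      · refine Finset.card_image_le.trans ?_
        rw [Finset.card_product, Finset.card_range]
        exact Nat.mul_le_mul_left _ (by omega)
      · refine Finset.card_biUnion_le.trans ?_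
        refine (Finset.sum_le_card_nsmul _ _ D
          (fun t _ => Finset.card_image_le.trans (hCrc t))).trans ?_
        rw [Finset.card_range, smul_eq_mul]
        exact Nat.mul_le_mul_right _ hN2
    · intro t ht c hc
      apply Finset.mem_union_right
      exact Finset.mem_biUnion.2 ⟨t, Finset.mem_range.2 ht,
        Finset.mem_image.2 ⟨c, hCrm t c hc, rfl⟩⟩
    · intro z hz
      have hsm0 : ∀ s ∈ List.replicate r (0 : ℂ), ‖s‖ < ε := by
        intro s hs
        rw [(List.mem_replicate.1 hs).2]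
        simpa using hε
      have hrun : ∀ w', run T 0 (φ bs) w' = It T (K * m) r (rb T 0 bs w') := by
        intro w'
        rw [hφ]
        simp only
        rw [run_append, hfl, Nat.zero_add]
        rfl
      have hΛr : Λ ^ r ≤ Λ ^ m := pow_le_pow_right₀ (by linarith) hr.le
      rcases hBD.dich hNt hbsB hth0.le hρr hρ0.le hThρ (bad_eq hz) with h1 | ⟨ν, hν, j, hj, h1⟩
      · left
        intro w' hw'
        rw [hrun]
        have h2 := h1 w' hw'
        have h3 := big_run' h hsm0 (i := K * m) h2.le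
        exact h2.trans_le h3
      · set a : ℂ := rb T (0 + j * m) (bs.drop j) ν with ha
        have ha' : a = rb T (j * m) (bs.drop j) ν := by rw [ha, Nat.zero_add]
        rcases lt_or_ge (R + 1) ‖a‖ with ha1 | ha1
        · left
          intro w' hw'
          rw [hrun]
          have h2 := h1 w' hw'
          have h3 : ‖a‖ ≤ ‖rb T 0 bs w'‖ + ‖rb T 0 bs w' - a‖ := by
            calc ‖a‖ = ‖rb T 0 bs w' - (rb T 0 bs w' - a)‖ := by congr 1; ring
              _ ≤ _ := norm_sub_le _ _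
          have h4 : 2 * (th * r₀) ≤ 1 / 2 := by nlinarith [norm_nonneg (rb T 0 bs w' - a)]
          have h5 : R < ‖rb T 0 bs w'‖ := by linarith
          have h6 := big_run' h hsm0 (i := K * m) h5.le
          exact h5.trans_le h6
        · have hdist : ∀ w', ‖z - w'‖ ≤ ρ → ‖a - rb T 0 bs w'‖ * Λ ^ r ≤ ρ / 16 := by
            intro w' hw'
            have h2 := h1 w' hw'
            rw [norm_sub_rev] at h2
            calc ‖a - rb T 0 bs w'‖ * Λ ^ r ≤ (2 * (th * r₀)) * Λ ^ m := by gcongr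
              _ ≤ ρ / 16 := by rw [mul_comm]; exact hsmall
          have hρ1 : ρ ≤ 1 / 2 := by nlinarith
          rcases lt_or_ge (R + 1) ‖It T (K * m) r a‖ with ha2 | ha2
          · left
            intro w' hw'
            rw [hrun]
            apply kill_run h hsm0 ha1 _ ha2
            rw [List.length_replicate]
            linarith [hdist w' hw']
          · right
            refine ⟨It T (K * m) r a, ?_, fun w' hw' => ?_⟩
            · apply Finset.mem_union_left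
              refine Finset.mem_image.2 ⟨(ν, j), Finset.mem_product.2 ⟨hν, Finset.mem_range.2 ?_⟩, ?_⟩
              · show j < K + 1
                omega
              · show It T (K * m) r (rb T (j * m) (bs.drop j) ν) = _
                rw [← ha']
            · rw [hrun, norm_sub_rev]
              have h3 := lip_run h hsm0 (i := K * m) (z := a) (w := rb T 0 bs w') (by
                rw [List.length_replicate]
                linarith [hdist w' hw']) ha2
              rw [List.length_replicate, mul_comm (Λ ^ r)] at h3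
              exact h3.trans (hdist w' hw')

end Pool.Agent.Y334.FP
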