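import Mathlib
import Pool.Agent.Y334.FP.Choice
import Pool.Agent.Y334.FP.Part
import Pool.Agent.Y334.FP.Fib
import Pool.Agent.Y334.FS.Sel

/-! Fibered polynomials: gluing. -/

set_option autoImplicit false

open Filter Topology Metric Set Polynomial

namespace Pool.Agent.Y334.FP

open Pool.Agent.Y334.NA Pool.Agent.Y334.FS

/-- the post-critical set -/
def PCc {X : Type} (T : X → X) (P : X → ℂ[X]) (s : X → ℂ) : Set (X × ℂ) :=
  {p | ∃ y c k, 1 ≤ k ∧ (derivative (P y)).eval c = 0 ∧ p = (T^[k] y, fc T P s k y c)}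

/-- contraction until escape near the closure of the post-critical set -/
def HypC {X : Type} [TopologicalSpace X] (T : X → X) (P : X → ℂ[X]) (s : X → ℂ) (r C lam : ℝ) :
    Prop :=
  ∀ p ∈ closure (PCc T P s), ∃ W ∈ 𝓝 p.1, ∀ x ∈ W,
    (∀ k, ∀ z z', ‖z - p.2‖ < r → ‖z' - p.2‖ < r →
      ‖fc T P s k x z - fc T P s k x z'‖ ≤ C * lam ^ k * ‖z - z'‖) ∨
    ∃ k₀, (∀ k < k₀, ∀ z z', ‖z - p.2‖ < r → ‖z' - p.2‖ < r →
      ‖fc T P s k x z - fc T P s k x z'‖ ≤ C * lam ^ k * ‖z - z'‖) ∧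
      ∀ k z, ‖z - p.2‖ < r → 2 ^ k ≤ ‖fc T P s (k₀ + k) x z‖

theorem dich_of {A : ℕ → Prop} {Es : ℕ → Prop} (h : ∀ k, A k ∨ ∃ k₀ ≤ k, Es k₀) :
    (∀ k, A k) ∨ ∃ k₀, (∀ k < k₀, A k) ∧ Es k₀ := by
  classical
  by_cases hA : ∀ k, A k
  · exact Or.inl hA
  · right
    push Not at hA
    have h1 := Nat.find_spec hA
    have h2 : ∀ k < Nat.find hA, A k := fun k hk => not_not.1 (Nat.find_min hA hk)
    rcases h (Nat.find hA) with h3 | ⟨k₀, h3, h4⟩
    · exact absurd h3 h1
    · exact ⟨k₀, fun k hk => h2 k (hk.trans_le h3), h4⟩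

/-- **Gluing.** -/
theorem glue (d : ℕ) {A ε : ℝ} (hA : 1 ≤ A) (hε : 0 < ε) (hε1 : ε ≤ 1) :
    ∃ (S : Finset ℂ) (n : ℕ) (r C lam : ℝ), (∀ t ∈ S, ‖t‖ < ε) ∧ 1 ≤ n ∧ 0 < r ∧ 0 < C ∧ 0 < lam ∧
      lam < 1 ∧
      ∀ (X : Type) [TopologicalSpace X] (T : X ≃ₜ X) (M Rd : Set X), Mk T n M Rd → SelP X →
      ∀ (P : X → ℂ[X]), (∀ k, Continuous fun x => (P x).coeff k) → (∀ x, Bd d A (P x)) →
      ∃ s : X → ℂ, LC s ∧ (∀ x, s x ∈ S) ∧ HypC (⇑T) P s r C lam := by
  classical
  have hA0 : 0 ≤ A := by linarith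
  -- radii
  obtain ⟨R₀, Λ₀, hR₀, -, hdat₀⟩ := dat_of_bounded d hA hε hε1
  set R : ℝ := R₀ + 1 with hR
  have hR1 : 1 ≤ R := by linarith
  obtain ⟨Λ, hΛ, hΛl⟩ := lip_bounded d hA0 (R + 3)
  have hescP : ∀ P : ℂ[X], Bd d A P → ∀ z t : ℂ, R₀ ≤ ‖z‖ → ‖t‖ ≤ ε →
      2 * ‖z‖ ≤ ‖P.eval z + t‖ := by
    intro P hP z t hz ht
    exact (hdat₀ (fun _ => P) (fun _ => hP)).esc 0 z t hz ht
  have hdat : ∀ U : ℕ → ℂ[X], (∀ i, Bd d A (U i)) → Dat U ε R Λ := by
    intro U hU
    refine ⟨fun i z t hz ht => hescP _ (hU i) z t (by linarith) ht, fun i z w hz hw => ?_, hR1, hΛ,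
      hε, hε1⟩
    exact hΛl _ (hU i).2.1 (hU i).2.2.1 z w hz hw
  obtain ⟨S, B, w, n, ρ, C₀, ⟨hS0, hS1⟩, hw, hs, hn, hρ, hρΛ, hpart⟩ := part hR1 hΛ hε d
  have hρ1 : ρ ≤ 1 / 4 := by nlinarith
  -- Lipschitz constant of `4 n + 1` steps
  obtain ⟨L, hL1, hL⟩ := lip_steps d (ε := ε) hA0 (4 * n + 1) (R + 3)
  -- the net
  set G : ℝ := Λ ^ (3 * n) with hG
  have hG1 : 1 ≤ G := one_le_pow₀ (by linarith)
  have hG0 : 0 < G := by linarith
  set κ : ℝ := ρ / (32 * G) with hκ
  have hκ0 : 0 < κ := by positivity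
  obtain ⟨η₂, hη₂, hcrit⟩ := close_crit d hA R hκ0
  obtain ⟨Mc, hMc, hclose⟩ := close_bounded d (R + 3)
  set η₁ : ℝ := ρ / (32 * (3 * n) * G) with hη₁
  have hn' : (1 : ℝ) ≤ n := by exact_mod_cast hn
  have hη₁0 : 0 < η₁ := by positivity
  set η : ℝ := min η₂ (η₁ / Mc) with hη
  have hη0 : 0 < η := by positivity
  obtain ⟨I, hI, hInet⟩ := net_poly d A hη0
  -- rates
  set lam : ℝ := 1 - 1 / (4 * n) with hlam
  have hn4 : 1 / (4 * (n : ℝ)) ≤ 1 / 4 := by
    apply one_div_le_one_div_of_le <;> linarith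
  have hn5 : 0 < 1 / (4 * (n : ℝ)) := by positivity
  have hlam0 : 0 < lam := by rw [hlam]; linarith
  have hlam1 : lam < 1 := by rw [hlam]; linarith
  have hlam3 : 1 / 4 ≤ lam ^ (3 * n) := by
    have h1 := one_add_mul_le_pow (a := -(1 / (4 * (n : ℝ)))) (by linarith) (3 * n)
    have h2 : 1 + ((3 * n : ℕ) : ℝ) * -(1 / (4 * (n : ℝ))) = 1 / 4 := by
      push_cast
      field_simp
      ring
    rw [h2] at h1
    have h3 : 1 + -(1 / (4 * (n : ℝ))) = lam := by rw [hlam]; ring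
    rwa [h3] at h1
  set C₁ : ℝ := L * 4 with hC₁
  have hC₁0 : 0 < C₁ := by positivity
  set C : ℝ := C₁ * L / lam ^ (4 * n) with hC
  have hC0 : 0 < C := by positivity
  set r : ℝ := ρ / (64 * L) with hr
  have hr0 : 0 < r := by positivity
  have hrρ : r ≤ ρ / 64 := by
    rw [hr, div_le_div_iff₀ (by positivity) (by norm_num)]
    nlinarith
  refine ⟨S, n, r, C, lam, hS1, hn, hr0, hC0, hlam0, hlam1, ?_⟩
  intro X _ T M Rd hMk hsel P hPc hP
  by_cases hX : Nonempty X
  swap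
  · have hX' : IsEmpty X := not_nonempty_iff.1 hX
    exact ⟨fun _ => 0, fun x => hX'.elim x, fun x => hX'.elim x, fun p => hX'.elim p.1⟩
  obtain ⟨x₀⟩ := hX
  -- the letters
  obtain ⟨ι, hι, hιR⟩ := hsel {g : ℂ[X] // g ∈ I}
    (fun x g => ∀ j ≤ d, ‖(P x).coeff j - g.1.coeff j‖ < η)
    (by
      intro x g h1
      have h3 : ∀ᶠ y in 𝓝 x, ∀ k ∈ Finset.range (d + 1), ‖(P y).coeff k - g.1.coeff k‖ < η := by
        refine (Filter.eventually_all_finset _).2 fun k hk => ?_
        have g1 : Continuous fun y => ‖(P y).coeff k - g.1.coeff k‖ :=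
          ((hPc k).sub continuous_const).norm
        exact g1.continuousAt.eventually_lt continuousAt_const
          (h1 k (by have := Finset.mem_range.1 hk; omega))
      filter_upwards [h3] with y h4 j hj
      exact h4 j (Finset.mem_range.2 (by omega)))
    (by
      intro x
      obtain ⟨g, hg, h1⟩ := hInet (P x) (hP x)
      exact ⟨⟨g, hg⟩, h1⟩)
  set i₀ : {g : ℂ[X] // g ∈ I} := ι x₀ with hi₀
  have hcl : ∀ x z, ‖z‖ ≤ R + 3 → ‖(P x).eval z - ((ι x).1).eval z‖ ≤ η₁ := by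
    intro x z hz
    have h1 := hclose (P x) (ι x).1 (hP x).2.1 (hI _ (ι x).2).2.1 η hη0.le
      (fun j hj => (hιR x j hj).le) z hz
    refine h1.trans ?_
    calc Mc * η ≤ Mc * (η₁ / Mc) := by gcongr; exact min_le_right _ _
      _ = η₁ := by field_simp
  have hcr : ∀ x c, ‖c‖ ≤ R → (derivative (P x)).eval c = 0 →
      ∃ c', (derivative (ι x).1).eval c' = 0 ∧ ‖c - c'‖ ≤ κ := by
    intro x c hc h0
    obtain ⟨c', h1, h2⟩ := hcrit (P x) (ι x).1 (hP x) (hI _ (ι x).2)
      (fun j hj => ((hιR x j hj).le).trans (min_le_left _ _)) c hc h0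
    exact ⟨c', h1, h2.le⟩
  -- the part data
  have hU : ∀ u : ℕ → {g : ℂ[X] // g ∈ I}, Dat (fun i => (u i).1) ε R Λ ∧
      ∀ i, 2 ≤ (u i).1.natDegree ∧ (u i).1.natDegree ≤ d := fun u =>
    ⟨hdat _ fun i => hI _ (u i).2, fun i => ⟨(hI _ (u i).2).1, (hI _ (u i).2).2.1⟩⟩
  choose Kf φ Ef bdf g1 g2 g3 using fun q : ℕ × (ℕ → {g : ℂ[X] // g ∈ I}) =>
    hpart (fun i => (q.2 i).1) (hU q.2).1 (hU q.2).2 (max n (min q.1 (3 * n))) (le_max_left _ _)
      (max_le (by omega) (min_le_right _ _))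
  let D : ℕ × (ℕ → {g : ℂ[X] // g ∈ I}) → Pt ℂ (List ℂ) B w C₀ := fun q =>
    ⟨Kf q, Ef q, bdf q, g1 q, g2 q, fun bs h h' => (g3 q bs h h').2.2.1⟩
  obtain ⟨RS, BS, hRS, hBS⟩ := sys_of hw hs D
  -- words
  let sq : X → ℕ → {g : ℂ[X] // g ∈ I} := fun x i => if i < 3 * n then ι ((⇑T)^[i] x) else i₀
  have hsq : LC sq := by
    intro x
    have h1 : ∀ᶠ y in 𝓝 x, ∀ i ∈ Finset.range (3 * n), ι ((⇑T)^[i] y) = ι ((⇑T)^[i] x) :=
      (Filter.eventually_all_finset _).2 fun i _ => hι.comp (T.continuous.iterate i) x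
    filter_upwards [h1] with y hy
    funext i
    by_cases hi : i < 3 * n
    · simp only [sq, if_pos hi]
      exact hy i (Finset.mem_range.2 hi)
    · simp only [sq, if_neg hi]
  let W : X → ℕ × (ℕ → {g : ℂ[X] // g ∈ I}) := fun x => (hMk.nx x, sq x)
  have hW : LC W := by
    intro x
    filter_upwards [hMk.nx_lc x, hsq x] with y h1 h2
    simp only [W, h1, h2]
  let red : X → List (List ℂ) := fun x => RS (W (hMk.pv x)) (W x)
  have hred : LC red := by
    intro x
    filter_upwards [hW x, hW.comp hMk.pv_cont x] with y h1 h2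
    simp only [red, h1, h2]
  let blue : X → List (List ℂ) := fun x =>
    BS (W (hMk.pv x)) (red (hMk.pv x)) (W x) (W (hMk.next x))
  have hblue : LC blue := by
    intro x
    filter_upwards [hW x, hW.comp hMk.pv_cont x, hred.comp hMk.pv_cont x,
      hW.comp hMk.next_cont x] with y h1 h2 h3 h4
    simp only [blue, h1, h2, h3, h4]
  let ls : X → List (List ℂ) := fun x => if x ∈ Rd then red x else blue x
  have hls : LC ls := by
    intro x
    filter_upwards [hred x, hblue x, ev_clopen hMk.cR continuous_id x] with y h1 h2 h3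
    simp only [id] at h3
    simp only [ls, h1, h2, h3]
  let kw : X → List ℂ := fun x => φ (W x) (ls x)
  have hkw : LC kw := by
    intro x
    filter_upwards [hW x, hls x] with y h1 h2
    simp only [kw, h1, h2]
  let s : X → ℂ := fun y => (kw (hMk.bs y)).getD (hMk.bk y) 0
  have hsLC : LC s := by
    intro x
    filter_upwards [hkw.comp hMk.bs_cont x, hMk.bk_lc x] with y h1 h2
    simp only [s, h1, h2]
  -- properties at the markers
  have hok : ∀ x ∈ M, (D (W x)).ok (ls x) := by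
    intro x hx
    by_cases hxR : x ∈ Rd
    · simp only [ls, if_pos hxR]
      exact hRS _ _
    · simp only [ls, if_neg hxR]
      exact (hBS _ _ _ _ (hRS _ _)).1
  have hgoodx : ∀ x ∈ M, ∀ e ∈ Ef (W x) (ls x),
      bdf (W (hMk.next x)) e (ls (hMk.next x)) < 1 := by
    intro x hx
    have h1 := (hMk.nx_gap hn hx).2.2
    by_cases hxR : x ∈ Rd
    · have h2 : hMk.next x ∉ Rd := fun h => (h1.1 h) hxR
      simp only [ls, if_pos hxR, if_neg h2]
      have h3 := (hBS (W x) (red x) (W (hMk.next x)) (W (hMk.next (hMk.next x))) (hRS _ _)).2.1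
      simp only [blue, hMk.pv_next hx]
      exact h3
    · have h2 : hMk.next x ∈ Rd := h1.2 hxR
      simp only [ls, if_neg hxR, if_pos h2]
      have h3 := (hBS (W (hMk.pv x)) (red (hMk.pv x)) (W x) (W (hMk.next x)) (hRS _ _)).2.2
      simp only [red, hMk.pv_next hx]
      exact h3
  have hval : ∀ x ∈ M, n ≤ hMk.nx x ∧ hMk.nx x ≤ 3 * n := fun x hx =>
    ⟨(hMk.nx_gap hn hx).1, (hMk.nx_gap hn hx).2.1⟩
  have hclip : ∀ x ∈ M, max n (min (W x).1 (3 * n)) = hMk.nx x := by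
    intro x hx
    have := hval x hx
    show max n (min (hMk.nx x) (3 * n)) = _
    omega
  have hlen : ∀ x ∈ M, (kw x).length = hMk.nx x := fun x hx =>
    (g3 (W x) (ls x) (hok x hx).1 (hok x hx).2).1.trans (hclip x hx)
  have hmemx : ∀ x ∈ M, ∀ t ∈ kw x, t ∈ S := fun x hx =>
    (g3 (W x) (ls x) (hok x hx).1 (hok x hx).2).2.1
  have hsj : ∀ (x : X) (hx : x ∈ M) (j : ℕ) (hj : j < hMk.nx x), s ((⇑T)^[j] x) = (kw x)[j]'(by
      rw [hlen x hx]; exact hj) := by
    intro x hx j hj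
    simp only [s, hMk.bs_gap hx hj, hMk.bk_gap hx hj]
    exact List.getD_eq_getElem _ _ _
  have hsmem : ∀ y, s y ∈ S := by
    intro y
    obtain ⟨x, hx, j, hj, rfl⟩ := hMk.decomp y
    rw [hsj x hx j hj]
    exact hmemx x hx _ (List.getElem_mem _)
  refine ⟨s, hsLC, hsmem, ?_⟩
  have hsε : ∀ x, ‖s x‖ < ε := fun x => hS1 _ (hsmem x)
  have hkε : ∀ x ∈ M, ∀ a, ∀ t ∈ (kw x).drop a, ‖t‖ < ε := fun x hx a t ht =>
    hS1 _ (hmemx x hx t (List.mem_of_mem_drop ht))
  have hesc : ∀ x z, R₀ ≤ ‖z‖ → 2 * ‖z‖ ≤ ‖(P x).eval z + s x‖ := fun x z hz =>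
    hescP _ (hP x) z _ hz (hsε x).le
  have hbig : ∀ {x : X} {z : ℂ}, R₀ ≤ ‖z‖ → ∀ k, 2 ^ k * ‖z‖ ≤ ‖fc (⇑T) P s k x z‖ :=
    fun hz k => fc_big hR₀ hesc hz k
  have hbig' : ∀ {x : X} {z : ℂ}, R₀ < ‖z‖ → ∀ k, R₀ < ‖fc (⇑T) P s k x z‖ := by
    intro x z hz k
    have h1 := hbig (x := x) hz.le k
    have h2 : (1 : ℝ) ≤ 2 ^ k := one_le_pow₀ (by norm_num)
    nlinarith [norm_nonneg z]
  have hLk : ∀ (k : ℕ) (x : X) (z z' : ℂ), k ≤ 4 * n + 1 → ‖z‖ ≤ R + 3 → ‖z'‖ ≤ R + 3 →
      ‖fc (⇑T) P s k x z - fc (⇑T) P s k x z'‖ ≤ L * ‖z - z'‖ := by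
    intro k x z z' hk hz hz'
    rw [fc_run, fc_run]
    apply hL _ (fun i => ⟨(hP _).2.1, (hP _).2.2.1⟩) 0 _ (by rw [kl_length]; exact hk) _ z z' hz hz'
    intro t ht
    obtain ⟨i, -, rfl⟩ := List.mem_map.1 ht
    exact (hsε _).le
  -- the fibre iterates along a gap
  have hgap : ∀ x ∈ M, ∀ a ≤ hMk.nx x, ∀ z, fc (⇑T) P s (hMk.nx x - a) ((⇑T)^[a] x) z =
      run (fun i => P ((⇑T)^[i] x)) a ((kw x).drop a) z := by
    intro x hx a ha z
    have h1 : kl (⇑T) s (hMk.nx x - a) ((⇑T)^[a] x) = (kw x).drop a := by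
      apply List.ext_getElem
      · rw [kl_length, List.length_drop, hlen x hx]
      · intro i hi1 hi2
        rw [kl_length] at hi1
        simp only [kl, List.getElem_map, List.getElem_range, List.getElem_drop]
        rw [← Function.iterate_add_apply, hsj x hx (i + a) (by omega)]
        congr 1
        omega
    have h2 : (fun i => P ((⇑T)^[i] ((⇑T)^[a] x))) = fun i => P ((⇑T)^[i + a] x) := by
      funext i
      rw [Function.iterate_add_apply]
    rw [fc_run, h1, h2, run_shift (fun j => P ((⇑T)^[j] x)), Nat.zero_add]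
  -- comparison with the net along a gap
  have hdatx : ∀ x, Dat (fun i => P ((⇑T)^[i] x)) ε R Λ := fun x => hdat _ fun i => hP _
  have hdatn : ∀ x, Dat (fun i => ((W x).2 i).1) ε R Λ := fun x => (hU _).1
  have hcmp : ∀ x ∈ M, ∀ a ≤ hMk.nx x, ∀ z z', ‖z - z'‖ ≤ κ →
      (‖run (fun i => ((W x).2 i).1) a ((kw x).drop a) z'‖ ≤ R + 1 →
        ‖fc (⇑T) P s (hMk.nx x - a) ((⇑T)^[a] x) z -
          run (fun i => ((W x).2 i).1) a ((kw x).drop a) z'‖ ≤ ρ / 16) ∧
      (R < ‖run (fun i => ((W x).2 i).1) a ((kw x).drop a) z'‖ →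
        R₀ < ‖fc (⇑T) P s (hMk.nx x - a) ((⇑T)^[a] x) z‖) := by
    intro x hx a ha z z' hzz
    rw [hgap x hx a ha]
    have hll : ((kw x).drop a).length = hMk.nx x - a := by rw [List.length_drop, hlen x hx]
    have hN3 := (hval x hx).2
    have hpow : Λ ^ ((kw x).drop a).length ≤ G :=
      pow_le_pow_right₀ (by linarith) (by rw [hll]; omega)
    have hsm : (κ + η₁ * ((kw x).drop a).length) * Λ ^ ((kw x).drop a).length ≤ ρ / 16 := by
      have h1 : (((kw x).drop a).length : ℝ) ≤ 3 * n := by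
        rw [hll]
        exact_mod_cast (by omega : hMk.nx x - a ≤ 3 * n)
      calc (κ + η₁ * ((kw x).drop a).length) * Λ ^ ((kw x).drop a).length
          ≤ (κ + η₁ * (3 * n)) * G := by gcongr
        _ = ρ / 16 := by
          rw [hκ, hη₁]
          field_simp
          ring
    have h1 := close_run (hdatx x) (hdatn x) hη₁0.le (hkε x hx a) (i := a)
      (by
        intro j hj1 hj2 u hu
        rw [hll] at hj2
        have h2 : (W x).2 j = ι ((⇑T)^[j] x) := by
          have hj3 : j < 3 * n := by omega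
          simp only [W, sq, if_pos hj3]
        rw [h2]
        exact hcl _ u hu) hzz (hsm.trans (by linarith))
    refine ⟨fun h2 => (h1.1 h2).trans hsm, fun h2 => ?_⟩
    have := h1.2 h2
    linarith
  -- the ends
  let Lam : X → Finset ℂ := fun y => Ef (W (hMk.pv y)) (ls (hMk.pv y))
  have hLam : LC Lam := by
    intro x
    filter_upwards [hW.comp hMk.pv_cont x, hls.comp hMk.pv_cont x] with y h1 h2
    simp only [Lam, h1, h2]
  have hLn : ∀ x ∈ M, Lam (hMk.next x) = Ef (W x) (ls x) := by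
    intro x hx
    simp only [Lam, hMk.pv_next hx]
  have hstep : ∀ y ∈ M, ∀ e ∈ Lam y,
      (∀ z, ‖z - e‖ ≤ ρ → R₀ < ‖fc (⇑T) P s (hMk.nx y) y z‖) ∨
      ∃ e' ∈ Lam (hMk.next y), (∀ z, ‖z - e‖ ≤ ρ → ‖fc (⇑T) P s (hMk.nx y) y z - e'‖ ≤ ρ / 8) ∧
      ∀ z z', ‖z - e‖ ≤ ρ / 2 → ‖z' - e‖ ≤ ρ / 2 →
        ‖fc (⇑T) P s (hMk.nx y) y z - fc (⇑T) P s (hMk.nx y) y z'‖ ≤ 1 / 4 * ‖z - z'‖ := by
    intro y hy e he
    have h1 := hgoodx _ (hMk.pv_mem y) e he
    rw [hMk.next_pv hy] at h1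
    have h2 := (g3 (W y) (ls y) (hok y hy).1 (hok y hy).2).2.2.2.2 e h1
    have h3 : ∀ z, _ := fun z => hcmp y hy 0 (Nat.zero_le _) z z (by
      rw [sub_self, norm_zero]; exact hκ0.le)
    simp only [List.drop_zero, Nat.sub_zero, Function.iterate_zero, id] at h3
    rcases h2 with h2 | ⟨e', he', h2⟩
    · left
      intro z hz
      exact (h3 z).2 (h2 z (by rw [norm_sub_rev]; exact hz))
    · rcases lt_or_ge (R + 1 / 2) ‖e'‖ with hbe | hbe
      · left
        intro z hz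
        apply (h3 z).2
        have h4 := h2 z (by rw [norm_sub_rev]; exact hz)
        have h5 : ‖e'‖ ≤ ‖run (fun i => ((W y).2 i).1) 0 (kw y) z‖ +
            ‖run (fun i => ((W y).2 i).1) 0 (kw y) z - e'‖ := by
          calc ‖e'‖ = ‖run (fun i => ((W y).2 i).1) 0 (kw y) z -
              (run (fun i => ((W y).2 i).1) 0 (kw y) z - e')‖ := by congr 1; ring
            _ ≤ _ := norm_sub_le _ _
        linarith
      · right
        have h6 : ∀ z, ‖z - e‖ ≤ ρ → ‖fc (⇑T) P s (hMk.nx y) y z - e'‖ ≤ ρ / 8 := by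
          intro z hz
          have h4 := h2 z (by rw [norm_sub_rev]; exact hz)
          have h5 : ‖run (fun i => ((W y).2 i).1) 0 (kw y) z‖ ≤ R + 1 := by
            calc ‖run (fun i => ((W y).2 i).1) 0 (kw y) z‖
                = ‖(run (fun i => ((W y).2 i).1) 0 (kw y) z - e') + e'‖ := by congr 1; ring
              _ ≤ ‖run (fun i => ((W y).2 i).1) 0 (kw y) z - e'‖ + ‖e'‖ := norm_add_le _ _
              _ ≤ R + 1 := by linarith
          have h7 := (h3 z).1 h5
          calc ‖fc (⇑T) P s (hMk.nx y) y z - e'‖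
              = ‖(fc (⇑T) P s (hMk.nx y) y z - run (fun i => ((W y).2 i).1) 0 (kw y) z) +
                (run (fun i => ((W y).2 i).1) 0 (kw y) z - e')‖ := by congr 1; ring
            _ ≤ _ := norm_add_le _ _
            _ ≤ ρ / 8 := by linarith
        refine ⟨e', by rw [hLn y hy]; exact he', h6, fun z z' hz hz' => ?_⟩
        exact cauchy_lip (fc_diff _ _) hρ h6 hz hz'
  -- contraction until escape, from the markers
  have hnorm : ∀ {e z : ℂ}, ‖z - e‖ ≤ 1 → ‖z‖ ≤ ‖e‖ + 1 ∧ ‖e‖ ≤ ‖z‖ + 1 := by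
    intro e z hz
    constructor
    · calc ‖z‖ = ‖(z - e) + e‖ := by congr 1; ring
        _ ≤ _ := norm_add_le _ _
        _ ≤ _ := by linarith
    · calc ‖e‖ = ‖z - (z - e)‖ := by congr 1; ring
        _ ≤ _ := norm_sub_le _ _
        _ ≤ _ := by linarith
  have hcon : ∀ k, ∀ y ∈ M, ∀ e ∈ Lam y,
      (∀ z z', ‖z - e‖ ≤ ρ / 2 → ‖z' - e‖ ≤ ρ / 2 →
        ‖fc (⇑T) P s k y z - fc (⇑T) P s k y z'‖ ≤ C₁ * lam ^ k * ‖z - z'‖) ∨
      ∃ k₀ ≤ k, ∀ z, ‖z - e‖ ≤ ρ / 2 → R₀ < ‖fc (⇑T) P s k₀ y z‖ := by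
    intro k
    induction k using Nat.strong_induction_on with
    | _ k ih =>
      intro y hy e he
      have hN := (hval y hy).2
      rcases lt_or_ge (R + 1) ‖e‖ with hbe | hbe
      · right
        refine ⟨0, Nat.zero_le _, fun z hz => ?_⟩
        have := (hnorm (hz.trans (by linarith))).2
        show R₀ < ‖z‖
        linarith
      · by_cases hk : k < hMk.nx y
        · left
          intro z z' hz hz'
          refine (hLk k y z z' (by omega) ?_ ?_).trans ?_
          · have := (hnorm (hz.trans (by linarith))).1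
            linarith
          · have := (hnorm (hz'.trans (by linarith))).1
            linarith
          · apply mul_le_mul_of_nonneg_right _ (norm_nonneg _)
            have h1 : lam ^ (3 * n) ≤ lam ^ k :=
              pow_le_pow_of_le_one hlam0.le hlam1.le (by omega)
            rw [hC₁]
            nlinarith
        · push Not at hk
          rcases hstep y hy e he with h1 | ⟨e', he', h1, h2⟩
          · right
            exact ⟨hMk.nx y, hk, fun z hz => h1 z (by linarith)⟩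
          · have e1 : k = (k - hMk.nx y) + hMk.nx y := by omega
            have hy1 := hMk.nx_pos y
            rcases ih (k - hMk.nx y) (by omega) _ (hMk.next_mem y) e' he' with h3 | ⟨k₁, hk₁, h3⟩
            · left
              intro z z' hz hz'
              have h4 := h3 _ _ ((h1 z (by linarith)).trans (by linarith))
                ((h1 z' (by linarith)).trans (by linarith))
              have h5 : ‖fc (⇑T) P s k y z - fc (⇑T) P s k y z'‖ =
                  ‖fc (⇑T) P s (k - hMk.nx y) (hMk.next y) (fc (⇑T) P s (hMk.nx y) y z) -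
                    fc (⇑T) P s (k - hMk.nx y) (hMk.next y) (fc (⇑T) P s (hMk.nx y) y z')‖ := by
                conv_lhs => rw [e1, fc_add, fc_add]
                rfl
              rw [h5]
              refine h4.trans ?_
              have h6 : lam ^ k = lam ^ (k - hMk.nx y) * lam ^ (hMk.nx y) := by
                rw [← pow_add]; congr 1
              have h7 : 1 / 4 ≤ lam ^ (hMk.nx y) :=
                hlam3.trans (pow_le_pow_of_le_one hlam0.le hlam1.le hN)
              have h8 : 0 < lam ^ (k - hMk.nx y) := by positivity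
              have h9 := h2 z z' hz hz'
              calc C₁ * lam ^ (k - hMk.nx y) *
                    ‖fc (⇑T) P s (hMk.nx y) y z - fc (⇑T) P s (hMk.nx y) y z'‖
                  ≤ C₁ * lam ^ (k - hMk.nx y) * (1 / 4 * ‖z - z'‖) := by gcongr
                _ ≤ C₁ * lam ^ (k - hMk.nx y) * (lam ^ (hMk.nx y) * ‖z - z'‖) := by gcongr
                _ = C₁ * lam ^ k * ‖z - z'‖ := by rw [h6]; ring
            · right
              refine ⟨k₁ + hMk.nx y, by omega, fun z hz => ?_⟩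
              rw [fc_add]
              exact h3 _ ((h1 z (by linarith)).trans (by linarith))
  -- the critical orbits at the markers
  have hinj : ∀ k, Function.Injective (⇑T)^[k] := fun k => T.injective.iterate k
  have hpc : ∀ j, 1 ≤ j → ∀ y c, (derivative (P y)).eval c = 0 → (⇑T)^[j] y ∈ M →
      R₀ < ‖fc (⇑T) P s j y c‖ ∨
      ∃ e ∈ Lam ((⇑T)^[j] y), ‖fc (⇑T) P s j y c - e‖ ≤ ρ / 8 := by
    intro j
    induction j using Nat.strong_induction_on with
    | _ j ih =>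
      intro hj y c hc hyM
      have hp := hMk.pv_mem ((⇑T)^[j] y)
      have hnp := hMk.next_pv hyM
      set p := hMk.pv ((⇑T)^[j] y) with hpdef
      set k := hMk.nx p with hk
      have hnp' : (⇑T)^[k] p = (⇑T)^[j] y := hnp
      have hk1 : 1 ≤ k := hMk.nx_pos p
      by_cases hjk : j ≤ k
      · have hy : y = (⇑T)^[k - j] p := by
          apply hinj j
          rw [← Function.iterate_add_apply, ← hnp']
          congr 1
          congr 1
          omega
        rcases le_or_gt R₀ ‖c‖ with hcR | hcR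
        · left
          obtain ⟨j', rfl⟩ : ∃ j', j = j' + 1 := ⟨j - 1, by omega⟩
          have h1 := hbig (x := y) hcR (j' + 1)
          have h2 : (1 : ℝ) ≤ 2 ^ j' := one_le_pow₀ (by norm_num)
          rw [pow_succ] at h1
          nlinarith
        · have hyι : ι y = ι ((⇑T)^[k - j] p) := by rw [← hy]
          obtain ⟨c', hc1, hc2⟩ := hcr y c (by linarith) hc
          have hkk : k - (k - j) = j := by omega
          have h1 := hcmp p hp (k - j) (by omega) c c' hc2
          rw [← hk, hkk, ← hy] at h1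
          have hN3 := (hval p hp).2
          have h2 : ((W p).2 (k - j)) = ι y := by
            have hj3 : k - j < 3 * n := by omega
            simp only [W, sq, if_pos hj3]
            rw [← hy]
          have h3 := (g3 (W p) (ls p) (hok p hp).1 (hok p hp).2).2.2.2.1 (k - j)
            (by rw [hclip p hp]; omega) c' (by rw [h2]; exact hc1)
          have h4 : Lam ((⇑T)^[j] y) = Ef (W p) (ls p) := by
            rw [← hnp']
            exact hLn p hp
          rcases le_or_gt ‖run (fun i => ((W p).2 i).1) (k - j) ((kw p).drop (k - j)) c'‖ R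
            with h5 | h5
          · right
            refine ⟨_, by rw [h4]; exact h3, ?_⟩
            exact (h1.1 (h5.trans (by linarith))).trans (by linarith)
          · left
            exact h1.2 h5
      · push Not at hjk
        have hy : p = (⇑T)^[j - k] y := by
          apply hinj k
          rw [hnp', ← Function.iterate_add_apply]
          congr 1
          congr 1
          omega
        have e1 : j = k + (j - k) := by omega
        have h3 : fc (⇑T) P s j y c = fc (⇑T) P s k p (fc (⇑T) P s (j - k) y c) := by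
          conv_lhs => rw [e1]
          rw [fc_add, ← hy]
        rcases ih (j - k) (by omega) (by omega) y c hc (by rw [← hy]; exact hp) with h1 | ⟨e, he, h1⟩
        · left
          rw [h3]
          exact hbig' h1 k
        · rw [← hy] at he
          rcases hstep p hp e he with h2 | ⟨e', he', h2, -⟩
          · left
            rw [h3]
            exact h2 _ (h1.trans (by linarith))
          · right
            refine ⟨e', ?_, ?_⟩
            · rw [← hnp']
              exact he'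
            · rw [h3]
              exact h2 _ (h1.trans (by linarith))
  -- the conclusion
  have hscont : Continuous s := by
    rw [continuous_iff_continuousAt]
    intro x
    exact continuousAt_const.congr (by filter_upwards [hsLC x] with y hy using hy.symm)
  intro p hp
  have hL0 : 0 < L := by linarith
  have hLr : L * r ≤ ρ / 64 := by
    rw [hr]
    apply le_of_eq
    field_simp
  have hlp : 0 < lam ^ (4 * n) := by positivity
  have hCt : ∀ t ≤ 4 * n, L ≤ C * lam ^ t := by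
    intro t ht
    have h1 : lam ^ (4 * n) ≤ lam ^ t := pow_le_pow_of_le_one hlam0.le hlam1.le ht
    have h2 : 1 ≤ C₁ := by rw [hC₁]; linarith
    rw [hC, div_mul_eq_mul_div, le_div_iff₀ hlp]
    calc L * lam ^ (4 * n) ≤ L * lam ^ t := by gcongr
      _ ≤ C₁ * (L * lam ^ t) := le_mul_of_one_le_left (by positivity) h2
      _ = C₁ * L * lam ^ t := by ring
  -- it is enough to find the dichotomy for each time
  suffices h : ∃ Wn ∈ 𝓝 p.1, ∀ x ∈ Wn, ∀ k,
      (∀ z z', ‖z - p.2‖ < r → ‖z' - p.2‖ < r →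
        ‖fc (⇑T) P s k x z - fc (⇑T) P s k x z'‖ ≤ C * lam ^ k * ‖z - z'‖) ∨
      ∃ k₀ ≤ k, ∀ z, ‖z - p.2‖ < r → R₀ < ‖fc (⇑T) P s k₀ x z‖ by
    obtain ⟨Wn, hWn, h1⟩ := h
    refine ⟨Wn, hWn, fun x hx => ?_⟩
    rcases dich_of (h1 x hx) with h2 | ⟨k₀, h2, h3⟩
    · exact Or.inl h2
    · right
      refine ⟨k₀, h2, fun k z hz => ?_⟩
      have h4 := h3 z hz
      have h5 : fc (⇑T) P s (k₀ + k) x z = fc (⇑T) P s k ((⇑T)^[k₀] x) (fc (⇑T) P s k₀ x z) := by
        rw [Nat.add_comm, fc_add]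
      rw [h5]
      have h6 := hbig (x := (⇑T)^[k₀] x) h4.le k
      have h7 : (0 : ℝ) < 2 ^ k := by positivity
      nlinarith
  rcases lt_or_ge (R + 1) ‖p.2‖ with hpb | hpb
  · refine ⟨univ, univ_mem, fun x _ k => Or.inr ⟨0, Nat.zero_le _, fun z hz => ?_⟩⟩
    have := (hnorm (hz.le.trans (by linarith))).2
    show R₀ < ‖z‖
    linarith
  set t := hMk.tt p.1 with ht
  have ht4 : t ≤ 4 * n := hMk.tt_le p.1
  set u := fc (⇑T) P s t p.1 p.2 with hu
  set W₀ : Set X := {x | hMk.tt x = t ∧ Lam ((⇑T)^[t] x) = Lam ((⇑T)^[t] p.1) ∧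
    ‖fc (⇑T) P s t x p.2 - u‖ < ρ / 64} with hW₀
  have hW₀n : W₀ ∈ 𝓝 p.1 := by
    have h1 : Continuous fun x => ‖fc (⇑T) P s t x p.2 - u‖ :=
      ((fc_cont T.continuous hPc (fun x => (hP x).2.1) hscont t p.2).sub continuous_const).norm
    have h2 : ∀ᶠ x in 𝓝 p.1, ‖fc (⇑T) P s t x p.2 - u‖ < ρ / 64 := by
      apply h1.continuousAt.eventually_lt continuousAt_const
      show ‖fc (⇑T) P s t p.1 p.2 - u‖ < ρ / 64
      rw [hu, sub_self, norm_zero]
      positivity
    filter_upwards [hMk.tt_lc p.1, hLam.comp (T.continuous.iterate t) p.1, h2]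
      with y g1 g2 g3
    exact ⟨g1, g2, g3⟩
  have hnear : ∀ x ∈ W₀, ∀ z, ‖z - p.2‖ < r → ‖fc (⇑T) P s t x z - u‖ ≤ ρ / 32 := by
    intro x hx z hz
    have h1 := hLk t x z p.2 (by omega)
      (((hnorm (hz.le.trans (by linarith))).1).trans (by linarith)) (by linarith)
    have h2 : L * ‖z - p.2‖ ≤ ρ / 64 := by
      refine le_trans ?_ hLr
      gcongr
    calc ‖fc (⇑T) P s t x z - u‖ = ‖(fc (⇑T) P s t x z - fc (⇑T) P s t x p.2) +
        (fc (⇑T) P s t x p.2 - u)‖ := by congr 1; ring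
      _ ≤ _ := norm_add_le _ _
      _ ≤ ρ / 32 := by linarith [hx.2.2]
  obtain ⟨q, hqW, hqPC⟩ := mem_closure_iff_nhds.1 hp (W₀ ×ˢ ball p.2 r)
    (prod_mem_nhds hW₀n (ball_mem_nhds p.2 hr0))
  obtain ⟨y, c, k, hk1, hc, hq⟩ := hqPC
  obtain ⟨hqW0, hqb⟩ := hqW
  have hqb' : ‖q.2 - p.2‖ < r := by
    rw [mem_ball, dist_eq_norm] at hqb
    exact hqb
  have hqM : (⇑T)^[t] q.1 ∈ M := by
    have := hMk.tt_mem q.1
    rwa [hqW0.1] at this
  have hqT : (⇑T)^[t] q.1 = (⇑T)^[t + k] y := by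
    rw [hq, Function.iterate_add_apply]
  have h2 : fc (⇑T) P s (t + k) y c = fc (⇑T) P s t q.1 q.2 := by
    rw [fc_add, hq]
  have h3 := hnear q.1 hqW0 q.2 hqb'
  have hshort : ∀ x, ∀ m ≤ 4 * n, ∀ z z', ‖z - p.2‖ < r → ‖z' - p.2‖ < r →
      ‖fc (⇑T) P s m x z - fc (⇑T) P s m x z'‖ ≤ C * lam ^ m * ‖z - z'‖ := by
    intro x m hm z z' hz hz'
    refine (hLk m x z z' (by omega) (((hnorm (hz.le.trans (by linarith))).1).trans (by linarith))
      (((hnorm (hz'.le.trans (by linarith))).1).trans (by linarith))).trans ?_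
    exact mul_le_mul_of_nonneg_right (hCt m hm) (norm_nonneg _)
  refine ⟨W₀, hW₀n, fun x hx m => ?_⟩
  have hxM : (⇑T)^[t] x ∈ M := by
    have := hMk.tt_mem x
    rwa [hx.1] at this
  rcases hpc (t + k) (by omega) y c hc (by rw [← hqT]; exact hqM) with h1 | ⟨e, he, h1⟩
  · rw [h2] at h1
    by_cases hmt : m ≤ t
    · exact Or.inl (hshort x m (hmt.trans ht4))
    · right
      refine ⟨t + 1, by omega, fun z hz => ?_⟩
      have h4 := hnear x hx z hz
      set v := fc (⇑T) P s t x z with hv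
      set q' := fc (⇑T) P s t q.1 q.2 with hq'
      have h5 : ‖v - q'‖ ≤ ρ / 16 := by
        calc ‖v - q'‖ = ‖(v - u) - (q' - u)‖ := by congr 1; ring
          _ ≤ _ := norm_sub_le _ _
          _ ≤ ρ / 16 := by linarith
      rw [fc_succ, ← hv]
      rcases le_or_gt R₀ ‖v‖ with h6 | h6
      · have h7 := hesc ((⇑T)^[t] x) v h6
        linarith
      · have h8 : ‖q'‖ ≤ R + 1 := by
          have := (hnorm (show ‖q' - v‖ ≤ 1 by rw [norm_sub_rev]; linarith)).1
          linarith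
        have h9 := hΛl (P ((⇑T)^[t] x)) (hP _).2.1 (hP _).2.2.1 v q' (by linarith) (by linarith)
        have h10 := hesc ((⇑T)^[t] x) q' h1.le
        have h11 : ‖(P ((⇑T)^[t] x)).eval q' + s ((⇑T)^[t] x)‖ ≤
            ‖(P ((⇑T)^[t] x)).eval v + s ((⇑T)^[t] x)‖ +
            ‖(P ((⇑T)^[t] x)).eval v - (P ((⇑T)^[t] x)).eval q'‖ := by
          calc ‖(P ((⇑T)^[t] x)).eval q' + s ((⇑T)^[t] x)‖
              = ‖((P ((⇑T)^[t] x)).eval v + s ((⇑T)^[t] x)) -
                ((P ((⇑T)^[t] x)).eval v - (P ((⇑T)^[t] x)).eval q')‖ := by congr 1; ring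
            _ ≤ _ := norm_sub_le _ _
        have h12 : Λ * ‖v - q'‖ ≤ 1 / 16 := by
          calc Λ * ‖v - q'‖ ≤ Λ * (ρ / 16) := by gcongr
            _ = (ρ * Λ) / 16 := by ring
            _ ≤ 1 / 16 := by linarith
        linarith
  · rw [h2] at h1
    rw [← hqT, hqW0.2.1, ← hx.2.1] at he
    have h4 : ∀ z, ‖z - p.2‖ < r → ‖fc (⇑T) P s t x z - e‖ ≤ ρ / 2 := by
      intro z hz
      have h5 := hnear x hx z hz
      calc ‖fc (⇑T) P s t x z - e‖ = ‖(fc (⇑T) P s t x z - u) - (fc (⇑T) P s t q.1 q.2 - u) +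
          (fc (⇑T) P s t q.1 q.2 - e)‖ := by congr 1; ring
        _ ≤ ‖(fc (⇑T) P s t x z - u) - (fc (⇑T) P s t q.1 q.2 - u)‖ +
          ‖fc (⇑T) P s t q.1 q.2 - e‖ := norm_add_le _ _
        _ ≤ (‖fc (⇑T) P s t x z - u‖ + ‖fc (⇑T) P s t q.1 q.2 - u‖) +
          ‖fc (⇑T) P s t q.1 q.2 - e‖ := by gcongr; exact norm_sub_le _ _
        _ ≤ ρ / 2 := by linarith
    by_cases hmt : m ≤ t
    · exact Or.inl (hshort x m (hmt.trans ht4))
    · push Not at hmt
      have e1 : m = (m - t) + t := by omega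
      rcases hcon (m - t) _ hxM e he with h5 | ⟨k₁, hk₁, h5⟩
      · left
        intro z z' hz hz'
        have h6 := h5 _ _ (h4 z hz) (h4 z' hz')
        have h7 : ‖fc (⇑T) P s m x z - fc (⇑T) P s m x z'‖ =
            ‖fc (⇑T) P s (m - t) ((⇑T)^[t] x) (fc (⇑T) P s t x z) -
              fc (⇑T) P s (m - t) ((⇑T)^[t] x) (fc (⇑T) P s t x z')‖ := by
          conv_lhs => rw [e1, fc_add, fc_add]
        rw [h7]
        refine h6.trans ?_
        have h8 := hLk t x z z' (by omega)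
          (((hnorm (hz.le.trans (by linarith))).1).trans (by linarith))
          (((hnorm (hz'.le.trans (by linarith))).1).trans (by linarith))
        have h9 : lam ^ (m - t) ≤ lam ^ m / lam ^ (4 * n) := by
          rw [le_div_iff₀ hlp, ← pow_add]
          exact pow_le_pow_of_le_one hlam0.le hlam1.le (by omega)
        calc C₁ * lam ^ (m - t) * ‖fc (⇑T) P s t x z - fc (⇑T) P s t x z'‖
            ≤ C₁ * (lam ^ m / lam ^ (4 * n)) * (L * ‖z - z'‖) := by gcongr
          _ = C * lam ^ m * ‖z - z'‖ := by rw [hC]; ring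
      · right
        refine ⟨k₁ + t, by omega, fun z hz => ?_⟩
        rw [fc_add]
        exact h5 _ (h4 z hz)

end Pool.Agent.Y334.FP
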